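import Mathlib

set_option autoImplicit false

/-!
# A non-multiplicative graph whose box complex is a circle

Let `H` be the house graph: the 5-cycle `0 1 2 3 4` with the chord `02`.  For a finite graph `G` let
`K(G)` be the graph on `(V(G) ∪ {*}) × {0, ..., 4}` in which

* `(g, i) ~ (h, j)` if `g ~ h` in `G` and `i ~ j` in the house graph,
* `(*, i) ~ (*, j)` if `i ~ j` in the 5-cycle,
* `(g, i) ~ (*, j)` if `i ∈ {1, 3, 4}` and `i ~ j` in the 5-cycle.

The box complex of `K(G)` is `ℤ₂`-homotopy equivalent to the circle for every `G`: deleting the chord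
edges `(g, 0)(h, 2)` does not change the equivariant homotopy type (stages `F1` and `F2` below), and
then the graph folds onto the 5-cycle `{*} × {0, ..., 4}` (stages `F3` and `F4`).  If `G` is
triangle-free and not 3-colourable (the Grötzsch graph) then `K(G)` is triangle-free, 3-colourable and
contains `G × K₃`; so `G × K₃ → K(G)`, but neither `G → K(G)` nor `K₃ → K(G)`.
-/

namespace Pool.Agent.Results.MP_ccca26_co.CircleBox

open Finset

section Z2

variable {X Y Z : Type*} [TopologicalSpace X] [TopologicalSpace Y] [TopologicalSpace Z]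

/-- Two continuous maps `f, g : X → Y` between spaces carrying involutions `σ`, `τ` are
`ℤ₂`-homotopic if there is a homotopy `H` from `f` to `g` all of whose stages are equivariant. -/
def Z2Homotopic (σ : X → X) (τ : Y → Y) (f g : C(X, Y)) : Prop :=
  ∃ H : ContinuousMap.Homotopy f g, ∀ (t : unitInterval) (x : X), H (t, σ x) = τ (H (t, x))

/-- The spaces `X` (with involution `σ`) and `Y` (with involution `τ`) are `ℤ₂`-homotopy equivalent:
there are equivariant maps `f : X → Y` and `g : Y → X` such that `g ∘ f` and `f ∘ g` are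
equivariantly homotopic to the identities. -/
def Z2HomotopyEquiv (σ : X → X) (τ : Y → Y) : Prop :=
  ∃ (f : C(X, Y)) (g : C(Y, X)), (∀ x, f (σ x) = τ (f x)) ∧ (∀ y, g (τ y) = σ (g y)) ∧
    Z2Homotopic σ σ (g.comp f) (ContinuousMap.id X) ∧
    Z2Homotopic τ τ (f.comp g) (ContinuousMap.id Y)

lemma Z2Homotopic.symm {σ : X → X} {τ : Y → Y} {f g : C(X, Y)} (h : Z2Homotopic σ τ f g) :
    Z2Homotopic σ τ g f := by
  obtain ⟨H, hH⟩ := h
  refine ⟨H.symm, fun t x => ?_⟩
  simp only [ContinuousMap.Homotopy.symm_apply]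
  exact hH _ _

lemma Z2Homotopic.trans {σ : X → X} {τ : Y → Y} {f g k : C(X, Y)} (h : Z2Homotopic σ τ f g)
    (h' : Z2Homotopic σ τ g k) : Z2Homotopic σ τ f k := by
  obtain ⟨H, hH⟩ := h
  obtain ⟨H', hH'⟩ := h'
  refine ⟨H.trans H', fun t x => ?_⟩
  simp only [ContinuousMap.Homotopy.trans_apply]
  split_ifs
  · exact hH _ _
  · exact hH' _ _

lemma Z2Homotopic.comp_mid {σ : X → X} {τ : Y → Y} {f g : C(Y, Y)} (h : Z2Homotopic τ τ f g)
    (a : C(Y, X)) (b : C(X, Y)) (ha : ∀ y, a (τ y) = σ (a y)) (hb : ∀ x, b (σ x) = τ (b x)) :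
    Z2Homotopic σ σ (a.comp (f.comp b)) (a.comp (g.comp b)) := by
  obtain ⟨H, hH⟩ := h
  refine ⟨{ toFun := fun p => a (H (p.1, b p.2))
            continuous_toFun := by fun_prop
            map_zero_left := fun x => by simp
            map_one_left := fun x => by simp }, fun t x => ?_⟩
  change a (H (t, b (σ x))) = σ (a (H (t, b x)))
  rw [hb, hH, ha]

lemma Z2HomotopyEquiv.trans {σ : X → X} {τ : Y → Y} {υ : Z → Z} (h : Z2HomotopyEquiv σ τ)
    (h' : Z2HomotopyEquiv τ υ) : Z2HomotopyEquiv σ υ := by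
  obtain ⟨f, g, hf, hg, hgf, hfg⟩ := h
  obtain ⟨f', g', hf', hg', hgf', hfg'⟩ := h'
  refine ⟨f'.comp f, g.comp g', fun x => ?_, fun z => ?_, ?_, ?_⟩
  · simp [hf, hf']
  · simp [hg, hg']
  · exact (hgf'.comp_mid g f hg hf).trans hgf
  · exact (hfg.comp_mid f' g' hf' hg').trans hfg'

end Z2

section Box

variable {V : Type*} [Fintype V]

/-- The face of the standard simplex on the vertex set `V` spanned by `A ⊆ V`. -/
def face (A : Finset V) : Set (V → ℝ) := {x | x ∈ stdSimplex ℝ V ∧ ∀ v, v ∉ A → x v = 0}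

/-- The box complex `Hom(K₂, K)` of a finite graph: the union of the cells `Δ^A × Δ^B` over all pairs
`(A, B)` of nonempty sets of vertices such that every vertex of `A` is adjacent to every vertex
of `B`. -/
def boxComplex (K : SimpleGraph V) : Set ((V → ℝ) × (V → ℝ)) :=
  {p | ∃ A B : Finset V, A.Nonempty ∧ B.Nonempty ∧ (∀ a ∈ A, ∀ b ∈ B, K.Adj a b) ∧
    p.1 ∈ face A ∧ p.2 ∈ face B}

lemma mem_boxComplex_iff (K : SimpleGraph V) (p : (V → ℝ) × (V → ℝ)) :
    p ∈ boxComplex K ↔ p.1 ∈ stdSimplex ℝ V ∧ p.2 ∈ stdSimplex ℝ V ∧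
      ∀ u v, p.1 u ≠ 0 → p.2 v ≠ 0 → K.Adj u v := by
  classical
  constructor
  · rintro ⟨A, B, -, -, hAB, ⟨h1, h1'⟩, ⟨h2, h2'⟩⟩
    refine ⟨h1, h2, fun u v hu hv => hAB u ?_ v ?_⟩
    · by_contra h; exact hu (h1' u h)
    · by_contra h; exact hv (h2' v h)
  · rintro ⟨h1, h2, h⟩
    refine ⟨univ.filter (fun v => p.1 v ≠ 0), univ.filter (fun v => p.2 v ≠ 0), ?_, ?_, ?_, ?_, ?_⟩
    · by_contra hne
      rw [not_nonempty_iff_eq_empty, filter_eq_empty_iff] at hne
      have := h1.2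
      rw [sum_eq_zero (fun v hv => by simpa using hne hv)] at this
      exact zero_ne_one this
    · by_contra hne
      rw [not_nonempty_iff_eq_empty, filter_eq_empty_iff] at hne
      have := h2.2
      rw [sum_eq_zero (fun v hv => by simpa using hne hv)] at this
      exact zero_ne_one this
    · intro a ha b hb
      exact h a b (by simpa using ha) (by simpa using hb)
    · exact ⟨h1, fun v hv => by simpa using hv⟩
    · exact ⟨h2, fun v hv => by simpa using hv⟩

/-- The free involution `(x, y) ↦ (y, x)` of the box complex; it sends the cell of `(A, B)` to the cell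
of `(B, A)`. -/
def swapBox (K : SimpleGraph V) (p : boxComplex K) : boxComplex K :=
  ⟨(p.1.2, p.1.1), by
    obtain ⟨A, B, hA, hB, hAB, h1, h2⟩ := p.2
    exact ⟨B, A, hB, hA, fun b hb a ha => (hAB a ha b hb).symm, h2, h1⟩⟩

/-- Straight-line homotopy between contiguous maps. -/
lemma homotopic_of_contiguous (K : SimpleGraph V) (P Q : C(boxComplex K, boxComplex K))
    (hP : ∀ p, P (swapBox K p) = swapBox K (P p)) (hQ : ∀ p, Q (swapBox K p) = swapBox K (Q p))
    (h : ∀ (p : boxComplex K) (u v : V), (P p).1.1 u ≠ 0 → (Q p).1.2 v ≠ 0 → K.Adj u v) :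
    Z2Homotopic (swapBox K) (swapBox K) P Q := by
  have h' : ∀ (p : boxComplex K) (u v : V), (Q p).1.1 u ≠ 0 → (P p).1.2 v ≠ 0 → K.Adj u v := by
    intro p u v hu hv
    have := h (swapBox K p) v u (by rw [hP]; exact hv) (by rw [hQ]; exact hu)
    exact this.symm
  have mem : ∀ (t : unitInterval) (p : boxComplex K),
      ((1 - (t : ℝ)) • (P p).1 + (t : ℝ) • (Q p).1) ∈ boxComplex K := by
    intro t p
    obtain ⟨hp1, hp2, hp⟩ := (mem_boxComplex_iff K _).1 (P p).2
    obtain ⟨hq1, hq2, hq⟩ := (mem_boxComplex_iff K _).1 (Q p).2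
    rw [mem_boxComplex_iff]
    have ht0 : 0 ≤ (t : ℝ) := t.2.1
    have ht1 : 0 ≤ 1 - (t : ℝ) := by linarith [t.2.2]
    refine ⟨?_, ?_, ?_⟩
    · exact (convex_stdSimplex ℝ V) hp1 hq1 ht1 ht0 (by ring)
    · exact (convex_stdSimplex ℝ V) hp2 hq2 ht1 ht0 (by ring)
    · intro u v hu hv
      have hu' : (P p).1.1 u ≠ 0 ∨ (Q p).1.1 u ≠ 0 := by
        by_contra hc
        rw [not_or, not_ne_iff, not_ne_iff] at hc
        apply hu
        simp [hc.1, hc.2]
      have hv' : (P p).1.2 v ≠ 0 ∨ (Q p).1.2 v ≠ 0 := by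
        by_contra hc
        rw [not_or, not_ne_iff, not_ne_iff] at hc
        apply hv
        simp [hc.1, hc.2]
      rcases hu' with hu' | hu' <;> rcases hv' with hv' | hv'
      · exact hp u v hu' hv'
      · exact h p u v hu' hv'
      · exact h' p u v hu' hv'
      · exact hq u v hu' hv'
  refine ⟨{ toFun := fun q => ⟨(1 - (q.1 : ℝ)) • (P q.2).1 + (q.1 : ℝ) • (Q q.2).1, mem q.1 q.2⟩
            continuous_toFun := by
              refine Continuous.subtype_mk ?_ _
              fun_prop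
            map_zero_left := fun x => by
              apply Subtype.ext
              simp
            map_one_left := fun x => by
              apply Subtype.ext
              simp }, fun t p => ?_⟩
  apply Subtype.ext
  change (1 - (t : ℝ)) • (P (swapBox K p)).1 + (t : ℝ) • (Q (swapBox K p)).1 = _
  rw [hP, hQ]
  rfl

end Box


/-- Adjacency in the 5-cycle. -/
def cyc (i j : Fin 5) : Prop := j = i + 1 ∨ i = j + 1

instance (i j : Fin 5) : Decidable (cyc i j) := by unfold cyc; infer_instance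

lemma cyc_symm {i j : Fin 5} (h : cyc i j) : cyc j i := h.symm

/-- The 5-cycle. -/
def C5 : SimpleGraph (Fin 5) where
  Adj i j := cyc i j
  symm := ⟨fun _ _ h => cyc_symm h⟩
  loopless := ⟨by decide⟩

/-- The tent functions on the plane. -/
def T (a b : ℝ) : Fin 5 → ℝ :=
  ![max 0 (min (a - b) (a + b)), max 0 (min (4 * b - a) (-a)), max 0 (min (-a - 4 * b) (a - b)),
    max 0 (min (a + b) (4 * b - a)), max 0 (min (-a) (-a - 4 * b))]

lemma T_nonneg (a b : ℝ) (i : Fin 5) : 0 ≤ T a b i := by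
  fin_cases i <;> simp [T]

lemma T_pos_iff (a b : ℝ) (i : Fin 5) : T a b i ≠ 0 ↔
    0 < ![a - b, 4 * b - a, -a - 4 * b, a + b, -a] i ∧
    0 < ![a + b, -a, a - b, 4 * b - a, -a - 4 * b] i := by
  rw [← (T_nonneg a b i).lt_iff_ne']
  fin_cases i <;> simp [T] 

lemma T_adj (a b : ℝ) (i j : Fin 5) (hi : T a b i ≠ 0) (hj : T (-a) (-b) j ≠ 0) : cyc i j := by
  rw [T_pos_iff] at hi hj
  fin_cases i <;> fin_cases j <;> simp only [cyc] <;> first | decide | (exfalso; simp at hi hj; linarith [hi.1, hi.2, hj.1, hj.2])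

lemma T_sum_pos (a b : ℝ) (h : a ≠ 0 ∨ b ≠ 0) : 0 < ∑ i, T a b i := by
  by_contra hc
  have h0 : ∀ i, T a b i = 0 := by
    intro i
    have h1 : ∑ i, T a b i = 0 := le_antisymm (not_lt.1 hc) (sum_nonneg fun i _ => T_nonneg a b i)
    exact (sum_eq_zero_iff_of_nonneg (fun i _ => T_nonneg a b i)).1 h1 i (mem_univ i)
  have h1 : ∀ i, ![a - b, 4 * b - a, -a - 4 * b, a + b, -a] i ≤ 0 ∨
    ![a + b, -a, a - b, 4 * b - a, -a - 4 * b] i ≤ 0 := by
    intro i
    by_contra h2
    rw [not_or, not_le, not_le] at h2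
    exact (T_pos_iff a b i).2 h2 (h0 i)
  have g0 := h1 0
  have g1 := h1 1
  have g2 := h1 2
  have g3 := h1 3
  have g4 := h1 4
  simp at g0 g1 g2 g3 g4
  have : a = 0 ∧ b = 0 := by
    rcases g0 with g0 | g0 <;> rcases g1 with g1 | g1 <;> rcases g2 with g2 | g2 <;>
    rcases g3 with g3 | g3 <;> rcases g4 with g4 | g4 <;>
    constructor <;> linarith
  rcases h with h | h
  · exact h this.1
  · exact h this.2

/-- x-coordinates of the five points of the plane carrying the vertices of the 5-cycle. -/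
def wa : Fin 5 → ℝ := ![2, -2, 1, 1, -2]
/-- y-coordinates. -/
def wb : Fin 5 → ℝ := ![0, 1, -2, 2, -1]

lemma T_inner (a b : ℝ) (i : Fin 5) (hi : T a b i ≠ 0) : 0 < a * wa i + b * wb i := by
  rw [T_pos_iff] at hi
  fin_cases i <;> simp [wa, wb] at hi ⊢ <;> linarith [hi.1, hi.2]

/-- the first coordinate of the moment point -/
def Pa (x y : Fin 5 → ℝ) : ℝ := ∑ i, (x i - y i) * wa i
/-- the second coordinate of the moment point -/
def Pb (x y : Fin 5 → ℝ) : ℝ := ∑ i, (x i - y i) * wb i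

lemma key (x y : Fin 5 → ℝ) (hx : ∀ i, 0 ≤ x i) (hy : ∀ i, 0 ≤ y i) (sx : ∑ i, x i = 1)
    (sy : ∑ i, y i = 1) (h : ∀ i j, x i ≠ 0 → y j ≠ 0 → cyc i j) (i : Fin 5) (hi : x i ≠ 0) :
    T (Pa x y) (Pb x y) i ≠ 0 := by
  have pr : ∀ i j, ¬ cyc i j → x i * y j = 0 := by
    intro i j hij
    by_contra hc
    exact hij (h i j (left_ne_zero_of_mul hc) (right_ne_zero_of_mul hc))
  have hi' : 0 < x i := lt_of_le_of_ne (hx i) (Ne.symm hi)
  have yz : ∀ j, ¬ cyc i j → y j = 0 := fun j hj => by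
    rcases mul_eq_zero.1 (pr i j hj) with h1 | h1
    · exact absurd h1 hi
    · exact h1
  rw [T_pos_iff]
  simp only [Fin.sum_univ_five] at sx sy
  have hx0 := hx 0
  have hx1 := hx 1
  have hx2 := hx 2
  have hx3 := hx 3
  have hx4 := hx 4
  have hy0 := hy 0
  have hy1 := hy 1
  have hy2 := hy 2
  have hy3 := hy 3
  have hy4 := hy 4
  simp only [Pa, Pb, Fin.sum_univ_five]
  fin_cases i
  · have y0 := yz 0 (by decide)
    have y2 := yz 2 (by decide)
    have y3 := yz 3 (by decide)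
    have s' : y 1 + y 4 = 1 := by linarith
    have x1 : x 1 = 0 := by
      have := pr 1 1 (by decide); have := pr 1 4 (by decide)
      nlinarith
    have x4 : x 4 = 0 := by
      have := pr 4 1 (by decide); have := pr 4 4 (by decide)
      nlinarith
    simp only [Fin.zero_eta, Fin.isValue] at hi'
    constructor <;> simp [wa, wb, y0, y2, y3, x1, x4] <;> linarith
  · have y1 := yz 1 (by decide)
    have y3 := yz 3 (by decide)
    have y4 := yz 4 (by decide)
    have s' : y 0 + y 2 = 1 := by linarith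
    have x0 : x 0 = 0 := by
      have := pr 0 0 (by decide); have := pr 0 2 (by decide)
      nlinarith
    have x2 : x 2 = 0 := by
      have := pr 2 0 (by decide); have := pr 2 2 (by decide)
      nlinarith
    simp only [Fin.mk_one, Fin.isValue] at hi'
    constructor <;> simp [wa, wb, y1, y3, y4, x0, x2] <;> linarith
  · have y2 := yz 2 (by decide)
    have y0 := yz 0 (by decide)
    have y4 := yz 4 (by decide)
    have s' : y 1 + y 3 = 1 := by linarith
    have x1 : x 1 = 0 := by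
      have := pr 1 1 (by decide); have := pr 1 3 (by decide)
      nlinarith
    have x3 : x 3 = 0 := by
      have := pr 3 1 (by decide); have := pr 3 3 (by decide)
      nlinarith
    simp only [Fin.reduceFinMk, Fin.isValue] at hi'
    constructor <;> simp [wa, wb, y2, y0, y4, x1, x3] <;> linarith
  · have y3 := yz 3 (by decide)
    have y0 := yz 0 (by decide)
    have y1 := yz 1 (by decide)
    have s' : y 2 + y 4 = 1 := by linarith
    have x2 : x 2 = 0 := by
      have := pr 2 2 (by decide); have := pr 2 4 (by decide)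
      nlinarith
    have x4 : x 4 = 0 := by
      have := pr 4 2 (by decide); have := pr 4 4 (by decide)
      nlinarith
    simp only [Fin.reduceFinMk, Fin.isValue] at hi'
    constructor <;> simp [wa, wb, y3, y0, y1, x2, x4] <;> linarith
  · have y4 := yz 4 (by decide)
    have y2 := yz 2 (by decide)
    have y1 := yz 1 (by decide)
    have s' : y 0 + y 3 = 1 := by linarith
    have x0 : x 0 = 0 := by
      have := pr 0 0 (by decide); have := pr 0 3 (by decide)
      nlinarith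
    have x3 : x 3 = 0 := by
      have := pr 3 0 (by decide); have := pr 3 3 (by decide)
      nlinarith
    simp only [Fin.reduceFinMk, Fin.isValue] at hi'
    constructor <;> simp [wa, wb, y4, y2, y1, x0, x3] <;> linarith


section Sphere

/-- The circle. -/
abbrev S1 : Type := Metric.sphere (0 : EuclideanSpace ℝ (Fin 2)) 1

/-- The antipodal map of the circle. -/
noncomputable def antipode (z : S1) : S1 := -z

variable {X : Type*} [TopologicalSpace X]

lemma sphere_homotopic (σ : X → X) (A B : C(X, S1)) (hA : ∀ x, A (σ x) = antipode (A x))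
    (hB : ∀ x, B (σ x) = antipode (B x))
    (h : ∀ x, 0 < inner ℝ (A x : EuclideanSpace ℝ (Fin 2)) (B x : EuclideanSpace ℝ (Fin 2))) :
    Z2Homotopic σ antipode A B := by
  have ne : ∀ (t : unitInterval) (x : X), (1 - (t : ℝ)) • (A x : EuclideanSpace ℝ (Fin 2)) +
      (t : ℝ) • (B x : EuclideanSpace ℝ (Fin 2)) ≠ 0 := by
    intro t x h0
    have ht0 : 0 ≤ (t : ℝ) := t.2.1
    have ht1 : 0 ≤ 1 - (t : ℝ) := by linarith [t.2.2]
    have e1 : inner ℝ (A x : EuclideanSpace ℝ (Fin 2)) ((1 - (t : ℝ)) • (A x : EuclideanSpace ℝ (Fin 2)) +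
      (t : ℝ) • (B x : EuclideanSpace ℝ (Fin 2))) = 0 := by rw [h0, inner_zero_right]
    have nA : ‖(A x : EuclideanSpace ℝ (Fin 2))‖ = 1 := by
      have := (A x).2
      rwa [mem_sphere_zero_iff_norm] at this
    rw [inner_add_right, real_inner_smul_right, real_inner_smul_right,
      real_inner_self_eq_norm_sq, nA] at e1
    have hx := h x
    have : 0 ≤ (t : ℝ) * inner ℝ (A x : EuclideanSpace ℝ (Fin 2)) (B x : EuclideanSpace ℝ (Fin 2)) := by
      positivity
    have h1 : (t : ℝ) = 1 := by nlinarith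
    rw [h1] at e1
    linarith
  refine ⟨{ toFun := fun q => ⟨‖(1 - (q.1 : ℝ)) • (A q.2 : EuclideanSpace ℝ (Fin 2)) +
              (q.1 : ℝ) • (B q.2 : EuclideanSpace ℝ (Fin 2))‖⁻¹ •
              ((1 - (q.1 : ℝ)) • (A q.2 : EuclideanSpace ℝ (Fin 2)) +
              (q.1 : ℝ) • (B q.2 : EuclideanSpace ℝ (Fin 2))), ?_⟩
            continuous_toFun := ?_
            map_zero_left := fun x => ?_
            map_one_left := fun x => ?_ }, fun t x => ?_⟩
  · rw [mem_sphere_zero_iff_norm, norm_smul, norm_inv, norm_norm,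
      inv_mul_cancel₀ (norm_ne_zero_iff.2 (ne q.1 q.2))]
  · refine Continuous.subtype_mk ?_ _
    have hV : Continuous (fun q : unitInterval × X =>
        (1 - (q.1 : ℝ)) • (A q.2 : EuclideanSpace ℝ (Fin 2)) +
        (q.1 : ℝ) • (B q.2 : EuclideanSpace ℝ (Fin 2))) := by fun_prop
    exact (hV.norm.inv₀ (fun q => norm_ne_zero_iff.2 (ne q.1 q.2))).smul hV
  · apply Subtype.ext
    have nA : ‖(A x : EuclideanSpace ℝ (Fin 2))‖ = 1 := by
      have := (A x).2
      rwa [mem_sphere_zero_iff_norm] at this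
    simp [nA]
  · apply Subtype.ext
    have nB : ‖(B x : EuclideanSpace ℝ (Fin 2))‖ = 1 := by
      have := (B x).2
      rwa [mem_sphere_zero_iff_norm] at this
    simp [nB]
  · apply Subtype.ext
    change ‖(1 - (t : ℝ)) • (A (σ x) : EuclideanSpace ℝ (Fin 2)) +
              (t : ℝ) • (B (σ x) : EuclideanSpace ℝ (Fin 2))‖⁻¹ •
              ((1 - (t : ℝ)) • (A (σ x) : EuclideanSpace ℝ (Fin 2)) +
              (t : ℝ) • (B (σ x) : EuclideanSpace ℝ (Fin 2))) =
      -(‖(1 - (t : ℝ)) • (A x : EuclideanSpace ℝ (Fin 2)) +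
              (t : ℝ) • (B x : EuclideanSpace ℝ (Fin 2))‖⁻¹ •
              ((1 - (t : ℝ)) • (A x : EuclideanSpace ℝ (Fin 2)) +
              (t : ℝ) • (B x : EuclideanSpace ℝ (Fin 2))))
    have e : (1 - (t : ℝ)) • (A (σ x) : EuclideanSpace ℝ (Fin 2)) +
              (t : ℝ) • (B (σ x) : EuclideanSpace ℝ (Fin 2)) =
        -((1 - (t : ℝ)) • (A x : EuclideanSpace ℝ (Fin 2)) +
              (t : ℝ) • (B x : EuclideanSpace ℝ (Fin 2))) := by
      rw [hA, hB]
      simp only [antipode, coe_neg_sphere, smul_neg]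
      abel
    rw [e, norm_neg, smul_neg]

end Sphere

section C5equiv

/-- The moment point of a point of the box complex of the 5-cycle. -/
noncomputable def mom (p : boxComplex C5) : EuclideanSpace ℝ (Fin 2) :=
  !₂[Pa p.1.1 p.1.2, Pb p.1.1 p.1.2]

lemma T_zero (i : Fin 5) : T 0 0 i = 0 := by
  fin_cases i <;> simp [T]

lemma T_continuous {X : Type*} [TopologicalSpace X] {f g : X → ℝ} (hf : Continuous f)
    (hg : Continuous g) (i : Fin 5) : Continuous (fun x => T (f x) (g x) i) := by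
  fin_cases i <;> simp [T] <;> fun_prop

lemma key' (p : boxComplex C5) (i : Fin 5) (hi : p.1.1 i ≠ 0) :
    T (Pa p.1.1 p.1.2) (Pb p.1.1 p.1.2) i ≠ 0 := by
  obtain ⟨h1, h2, h⟩ := (mem_boxComplex_iff C5 _).1 p.2
  exact key _ _ h1.1 h2.1 h1.2 h2.2 h i hi

lemma exists_ne {V : Type*} [Fintype V] {x : V → ℝ} (h : x ∈ stdSimplex ℝ V) : ∃ i, x i ≠ 0 := by
  by_contra hc
  rw [not_exists] at hc
  have := h.2
  rw [sum_eq_zero (fun i _ => not_ne_iff.1 (hc i))] at this
  exact zero_ne_one this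

lemma mom_ne (p : boxComplex C5) : mom p ≠ 0 := by
  obtain ⟨h1, h2, h⟩ := (mem_boxComplex_iff C5 _).1 p.2
  obtain ⟨i, hi⟩ := exists_ne h1
  intro h0
  have ha : Pa p.1.1 p.1.2 = 0 := by
    have := congrArg (fun v : EuclideanSpace ℝ (Fin 2) => v 0) h0
    simpa [mom] using this
  have hb : Pb p.1.1 p.1.2 = 0 := by
    have := congrArg (fun v : EuclideanSpace ℝ (Fin 2) => v 1) h0
    simpa [mom] using this
  have := key' p i hi
  rw [ha, hb] at this
  exact this (T_zero i)

lemma mom_swap (p : boxComplex C5) : mom (swapBox C5 p) = - mom p := by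
  ext i
  fin_cases i <;> simp [mom, swapBox, Pa, Pb, Fin.sum_univ_five] <;> ring

lemma mom_continuous : Continuous mom := by
  unfold mom Pa Pb
  fun_prop

/-- The map from the box complex of the 5-cycle to the circle. -/
noncomputable def f5 : C(boxComplex C5, S1) where
  toFun p := ⟨‖mom p‖⁻¹ • mom p, by
    rw [mem_sphere_zero_iff_norm, norm_smul, norm_inv, norm_norm,
      inv_mul_cancel₀ (norm_ne_zero_iff.2 (mom_ne p))]⟩
  continuous_toFun := by
    refine Continuous.subtype_mk ?_ _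
    exact (mom_continuous.norm.inv₀ (fun p => norm_ne_zero_iff.2 (mom_ne p))).smul mom_continuous

lemma S1_ne (z : S1) : (z : EuclideanSpace ℝ (Fin 2)) 0 ≠ 0 ∨ (z : EuclideanSpace ℝ (Fin 2)) 1 ≠ 0 := by
  by_contra hc
  rw [not_or, not_ne_iff, not_ne_iff] at hc
  have h1 := z.2
  rw [mem_sphere_zero_iff_norm, EuclideanSpace.norm_eq] at h1
  simp [hc.1, hc.2] at h1

/-- The normalised tent functions. -/
noncomputable def nT (a b : ℝ) (i : Fin 5) : ℝ := T a b i / ∑ j, T a b j

lemma nT_ne (a b : ℝ) (i : Fin 5) (h : nT a b i ≠ 0) : T a b i ≠ 0 := by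
  intro h0
  apply h
  simp [nT, h0]

lemma nT_mem (a b : ℝ) (h : a ≠ 0 ∨ b ≠ 0) : nT a b ∈ stdSimplex ℝ (Fin 5) := by
  constructor
  · intro i
    exact div_nonneg (T_nonneg a b i) (sum_nonneg fun j _ => T_nonneg a b j)
  · unfold nT
    rw [← sum_div, div_self (T_sum_pos a b h).ne']

/-- The map from the circle to the box complex of the 5-cycle. -/
noncomputable def g5 : C(S1, boxComplex C5) where
  toFun z := ⟨(nT ((z : EuclideanSpace ℝ (Fin 2)) 0) ((z : EuclideanSpace ℝ (Fin 2)) 1),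
    nT (-(z : EuclideanSpace ℝ (Fin 2)) 0) (-(z : EuclideanSpace ℝ (Fin 2)) 1)), by
    rw [mem_boxComplex_iff]
    refine ⟨nT_mem _ _ (S1_ne z), nT_mem _ _ ?_, fun i j hi hj => ?_⟩
    · rcases S1_ne z with h | h
      · exact Or.inl (neg_ne_zero.2 h)
      · exact Or.inr (neg_ne_zero.2 h)
    · exact T_adj _ _ i j (nT_ne _ _ _ hi) (nT_ne _ _ _ hj)⟩
  continuous_toFun := by
    have c0 : Continuous (fun z : S1 => (z : EuclideanSpace ℝ (Fin 2)) 0) := by fun_prop
    have c1 : Continuous (fun z : S1 => (z : EuclideanSpace ℝ (Fin 2)) 1) := by fun_prop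
    refine Continuous.subtype_mk ?_ _
    refine Continuous.prodMk ?_ ?_
    · refine continuous_pi fun i => ?_
      unfold nT
      refine Continuous.div (T_continuous c0 c1 i)
        (continuous_finsetSum _ fun j _ => T_continuous c0 c1 j) fun z => ?_
      exact (T_sum_pos _ _ (S1_ne z)).ne'
    · refine continuous_pi fun i => ?_
      unfold nT
      refine Continuous.div (T_continuous c0.neg c1.neg i)
        (continuous_finsetSum _ fun j _ => T_continuous c0.neg c1.neg j) fun z => ?_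
      refine (T_sum_pos _ _ ?_).ne'
      rcases S1_ne z with h | h
      · exact Or.inl (neg_ne_zero.2 h)
      · exact Or.inr (neg_ne_zero.2 h)

lemma f5_swap (p : boxComplex C5) : f5 (swapBox C5 p) = antipode (f5 p) := by
  apply Subtype.ext
  change ‖mom (swapBox C5 p)‖⁻¹ • mom (swapBox C5 p) = -(‖mom p‖⁻¹ • mom p)
  rw [mom_swap, norm_neg, smul_neg]

lemma g5_anti (z : S1) : g5 (antipode z) = swapBox C5 (g5 z) := by
  apply Subtype.ext
  apply Prod.ext
  · rfl
  · change nT (-(-(z : EuclideanSpace ℝ (Fin 2)) 0)) (-(-(z : EuclideanSpace ℝ (Fin 2)) 1)) = _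
    rw [neg_neg, neg_neg]
    rfl

lemma T_scale (a b c : ℝ) (hc : 0 < c) (i : Fin 5) : T (c * a) (c * b) i ≠ 0 ↔ T a b i ≠ 0 := by
  rw [T_pos_iff, T_pos_iff]
  have e1 : ![c * a - c * b, 4 * (c * b) - c * a, -(c * a) - 4 * (c * b), c * a + c * b, -(c * a)] i
      = c * ![a - b, 4 * b - a, -a - 4 * b, a + b, -a] i := by
    fin_cases i <;> simp <;> ring
  have e2 : ![c * a + c * b, -(c * a), c * a - c * b, 4 * (c * b) - c * a, -(c * a) - 4 * (c * b)] i
      = c * ![a + b, -a, a - b, 4 * b - a, -a - 4 * b] i := by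
    fin_cases i <;> simp <;> ring
  rw [e1, e2, mul_pos_iff_of_pos_left hc, mul_pos_iff_of_pos_left hc]

theorem equivC5 : Z2HomotopyEquiv (swapBox C5) antipode := by
  refine ⟨f5, g5, f5_swap, g5_anti, ?_, ?_⟩
  · apply Z2Homotopic.symm
    apply homotopic_of_contiguous
    · intro p; rfl
    · intro p
      change g5 (f5 (swapBox C5 p)) = _
      rw [f5_swap, g5_anti]
      rfl
    · intro p u v hu hv
      change p.1.1 u ≠ 0 at hu
      have h1 := key' p u hu
      have h2 := nT_ne _ _ _ hv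
      have hc : 0 < ‖mom p‖⁻¹ := inv_pos.2 (norm_pos_iff.2 (mom_ne p))
      have h3 : T (-Pa p.1.1 p.1.2) (-Pb p.1.1 p.1.2) v ≠ 0 := by
        rw [← T_scale _ _ _ hc]
        convert h2 using 3 <;> simp [f5, mom]
      exact T_adj _ _ u v h1 h3
  · apply sphere_homotopic
    · intro z
      change f5 (g5 (antipode z)) = antipode (f5 (g5 z))
      rw [g5_anti, f5_swap]
    · intro z; rfl
    · intro z
      change 0 < inner ℝ (‖mom (g5 z)‖⁻¹ • mom (g5 z)) (z : EuclideanSpace ℝ (Fin 2))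
      rw [real_inner_smul_left]
      refine mul_pos (inv_pos.2 (norm_pos_iff.2 (mom_ne _))) ?_
      set a := (z : EuclideanSpace ℝ (Fin 2)) 0 with ha
      set b := (z : EuclideanSpace ℝ (Fin 2)) 1 with hb
      have e : inner ℝ (mom (g5 z)) (z : EuclideanSpace ℝ (Fin 2)) =
          ∑ i, nT a b i * (a * wa i + b * wb i) + ∑ i, nT (-a) (-b) i * ((-a) * wa i + (-b) * wb i) := by
        rw [← sum_add_distrib]
        simp only [mom, PiLp.inner_apply, Fin.sum_univ_two]
        simp only [Pa, Pb, g5, ContinuousMap.coe_mk, RCLike.inner_apply, conj_trivial]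
        simp only [← ha, ← hb]
        simp [Fin.sum_univ_five]
        ring
      rw [e]
      have pos : ∀ a b : ℝ, (a ≠ 0 ∨ b ≠ 0) → 0 < ∑ i, nT a b i * (a * wa i + b * wb i) := by
        intro a b hab
        obtain ⟨i, hi⟩ := exists_ne (nT_mem a b hab)
        refine sum_pos' (fun j _ => ?_) ⟨i, mem_univ i, ?_⟩
        · rcases eq_or_ne (nT a b j) 0 with h | h
          · rw [h, zero_mul]
          · exact mul_nonneg ((nT_mem a b hab).1 j) (T_inner a b j (nT_ne _ _ _ h)).le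
        · exact mul_pos (lt_of_le_of_ne ((nT_mem a b hab).1 i) (Ne.symm hi))
            (T_inner a b i (nT_ne _ _ _ hi))
      have hz := S1_ne z
      refine add_pos (pos a b hz) (pos (-a) (-b) ?_)
      rcases hz with h | h
      · exact Or.inl (neg_ne_zero.2 h)
      · exact Or.inr (neg_ne_zero.2 h)

end C5equiv


section Main

variable {W : Type*} [Fintype W] (G : SimpleGraph W)

/-- the chord `02` -/
def chord (i j : Fin 5) : Prop := (i = 0 ∧ j = 2) ∨ (i = 2 ∧ j = 0)

instance (i j : Fin 5) : Decidable (chord i j) := by unfold chord; infer_instance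

/-- the classes joined to the apex cycle -/
def coned (i : Fin 5) : Prop := i = 1 ∨ i = 3 ∨ i = 4

instance (i : Fin 5) : Decidable (coned i) := by unfold coned; infer_instance

/-- Adjacency relation with parameter `c` (an extra relation on classes). -/
def KRel (c : Fin 5 → Fin 5 → Prop) : Option W × Fin 5 → Option W × Fin 5 → Prop
  | (some g, i), (some h, j) => G.Adj g h ∧ (cyc i j ∨ c i j)
  | (some _, i), (none, j) => coned i ∧ cyc i j
  | (none, i), (some _, j) => coned j ∧ cyc i j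
  | (none, i), (none, j) => cyc i j

/-- The counterexample graph `K(G)`. -/
def KG : SimpleGraph (Option W × Fin 5) where
  Adj := KRel G chord
  symm := ⟨by
    rintro ⟨g | g, i⟩ ⟨h | h, j⟩ hh
    · exact hh.symm
    · exact ⟨hh.1, hh.2.symm⟩
    · exact ⟨hh.1, hh.2.symm⟩
    · refine ⟨hh.1.symm, ?_⟩
      rcases hh.2 with h1 | h1 | h1
      · exact Or.inl h1.symm
      · exact Or.inr (Or.inr ⟨h1.2, h1.1⟩)
      · exact Or.inr (Or.inl ⟨h1.2, h1.1⟩)⟩
  loopless := ⟨by
    rintro ⟨g | g, i⟩ hh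
    · change cyc i i at hh
      revert hh; revert i; decide
    · exact G.irrefl hh.1⟩

/-- mass of the class `i` -/
def m (x : Option W × Fin 5 → ℝ) (i : Fin 5) : ℝ := ∑ g, x (some g, i)

/-- threshold -/
def thr (a b : ℝ) : ℝ := max 0 (2 * a - b)

lemma thr_nonneg (a b : ℝ) : 0 ≤ thr a b := le_max_left _ _

/-- first stage -/
def F1 (x y : Option W × Fin 5 → ℝ) : Option W × Fin 5 → ℝ
  | (none, i) => x (none, i)
  | (some g, i) => ![x (some g, 0),
      x (some g, 1) - min (x (some g, 1)) (m x 0 * m y 2) - min (x (some g, 1)) (m y 0 * m x 2),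
      x (some g, 2),
      x (some g, 3) + min (x (some g, 1)) (m x 0 * m y 2),
      x (some g, 4) + min (x (some g, 1)) (m y 0 * m x 2)] i

/-- second stage -/
def F2 (x y : Option W × Fin 5 → ℝ) : Option W × Fin 5 → ℝ
  | (none, i) => x (none, i)
  | (some g, i) => ![x (some g, 0) - min (x (some g, 0)) (thr (m y 2) (m x 0)),
      F1 x y (some g, 1),
      x (some g, 2) - min (x (some g, 2)) (thr (m y 0) (m x 2)),
      F1 x y (some g, 3) + min (x (some g, 0)) (thr (m y 2) (m x 0)),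
      F1 x y (some g, 4) + min (x (some g, 2)) (thr (m y 0) (m x 2))] i

/-- total mass over the point `i` of the apex cycle -/
def R (x y : Option W × Fin 5 → ℝ) (i : Fin 5) : ℝ := F2 x y (none, i) + ∑ g, F2 x y (some g, i)

/-- third stage -/
def F3 (x y : Option W × Fin 5 → ℝ) : Option W × Fin 5 → ℝ
  | (none, i) => ![R x y 0, F2 x y (none, 1), R x y 2, F2 x y (none, 3), F2 x y (none, 4)] i
  | (some g, i) => ![0, F2 x y (some g, 1), 0, F2 x y (some g, 3), F2 x y (some g, 4)] i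

/-- fourth stage -/
def F4 (x y : Option W × Fin 5 → ℝ) : Option W × Fin 5 → ℝ
  | (none, i) => R x y i
  | (some _, _) => 0

lemma sum_split (f : Option W × Fin 5 → ℝ) :
    ∑ v, f v = ∑ i, f (none, i) + ∑ g, ∑ i, f (some g, i) := by
  rw [Fintype.sum_prod_type, Fintype.sum_option]

lemma sum_F1 (x y : Option W × Fin 5 → ℝ) : ∑ v, F1 x y v = ∑ v, x v := by
  rw [sum_split, sum_split]
  congr 1
  refine sum_congr rfl fun g _ => ?_
  simp [Fin.sum_univ_five, F1]
  ring

lemma sum_F2 (x y : Option W × Fin 5 → ℝ) : ∑ v, F2 x y v = ∑ v, x v := by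
  rw [sum_split, sum_split]
  congr 1
  refine sum_congr rfl fun g _ => ?_
  simp [Fin.sum_univ_five, F1, F2]
  ring

lemma sum_R (x y : Option W × Fin 5 → ℝ) : ∑ i, R x y i = ∑ v, x v := by
  rw [← sum_F2 x y, sum_split]
  unfold R
  rw [sum_add_distrib, sum_comm]

lemma sum_F3 (x y : Option W × Fin 5 → ℝ) : ∑ v, F3 x y v = ∑ v, x v := by
  rw [← sum_F2 x y, sum_split, sum_split]
  simp [Fin.sum_univ_five, F3, R, sum_add_distrib]
  ring

lemma sum_F4 (x y : Option W × Fin 5 → ℝ) : ∑ v, F4 x y v = ∑ v, x v := by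
  rw [sum_split, ← sum_R x y]
  simp [F4]

lemma m_cont (i : Fin 5) : Continuous (fun x : Option W × Fin 5 → ℝ => m x i) := by
  unfold m; fun_prop

lemma F1_cont : Continuous (fun p : (Option W × Fin 5 → ℝ) × (Option W × Fin 5 → ℝ) =>
    F1 p.1 p.2) := by
  have h1 : ∀ i, Continuous (fun p : (Option W × Fin 5 → ℝ) × (Option W × Fin 5 → ℝ) =>
      m p.1 i) := fun i => (m_cont i).comp continuous_fst
  have h2 : ∀ i, Continuous (fun p : (Option W × Fin 5 → ℝ) × (Option W × Fin 5 → ℝ) =>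
      m p.2 i) := fun i => (m_cont i).comp continuous_snd
  refine continuous_pi ?_
  rintro ⟨g | g, i⟩
  · simp only [F1]; fun_prop
  · fin_cases i <;> simp only [F1] <;> simp <;> fun_prop

lemma F2_cont : Continuous (fun p : (Option W × Fin 5 → ℝ) × (Option W × Fin 5 → ℝ) =>
    F2 p.1 p.2) := by
  have h1 : ∀ i, Continuous (fun p : (Option W × Fin 5 → ℝ) × (Option W × Fin 5 → ℝ) =>
      m p.1 i) := fun i => (m_cont i).comp continuous_fst
  have h2 : ∀ i, Continuous (fun p : (Option W × Fin 5 → ℝ) × (Option W × Fin 5 → ℝ) =>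
      m p.2 i) := fun i => (m_cont i).comp continuous_snd
  have h3 : ∀ v, Continuous (fun p : (Option W × Fin 5 → ℝ) × (Option W × Fin 5 → ℝ) =>
      F1 p.1 p.2 v) := fun v => (continuous_apply v).comp F1_cont
  refine continuous_pi ?_
  rintro ⟨g | g, i⟩
  · simp only [F2]; fun_prop
  · fin_cases i <;> simp only [F2, thr] <;> simp <;> fun_prop

lemma R_cont : Continuous (fun p : (Option W × Fin 5 → ℝ) × (Option W × Fin 5 → ℝ) =>
    R p.1 p.2) := by
  have h3 : ∀ v, Continuous (fun p : (Option W × Fin 5 → ℝ) × (Option W × Fin 5 → ℝ) =>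
      F2 p.1 p.2 v) := fun v => (continuous_apply v).comp F2_cont
  refine continuous_pi fun i => ?_
  unfold R
  fun_prop

lemma F3_cont : Continuous (fun p : (Option W × Fin 5 → ℝ) × (Option W × Fin 5 → ℝ) =>
    F3 p.1 p.2) := by
  have h3 : ∀ v, Continuous (fun p : (Option W × Fin 5 → ℝ) × (Option W × Fin 5 → ℝ) =>
      F2 p.1 p.2 v) := fun v => (continuous_apply v).comp F2_cont
  have h4 : ∀ i, Continuous (fun p : (Option W × Fin 5 → ℝ) × (Option W × Fin 5 → ℝ) =>
      R p.1 p.2 i) := fun v => (continuous_apply v).comp R_cont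
  refine continuous_pi ?_
  rintro ⟨g | g, i⟩
  · fin_cases i <;> simp only [F3] <;> simp <;> fun_prop
  · fin_cases i <;> simp only [F3] <;> simp <;> fun_prop

lemma F4_cont : Continuous (fun p : (Option W × Fin 5 → ℝ) × (Option W × Fin 5 → ℝ) =>
    F4 p.1 p.2) := by
  have h4 : ∀ i, Continuous (fun p : (Option W × Fin 5 → ℝ) × (Option W × Fin 5 → ℝ) =>
      R p.1 p.2 i) := fun v => (continuous_apply v).comp R_cont
  refine continuous_pi ?_
  rintro ⟨g | g, i⟩
  · simp only [F4]; fun_prop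
  · simp only [F4]; fun_prop


lemma m_nonneg {x : Option W × Fin 5 → ℝ} (hx : ∀ v, 0 ≤ x v) (i : Fin 5) : 0 ≤ m x i :=
  sum_nonneg fun _ _ => hx _

lemma le_m {x : Option W × Fin 5 → ℝ} (hx : ∀ v, 0 ≤ x v) (g : W) (i : Fin 5) :
    x (some g, i) ≤ m x i :=
  single_le_sum (f := fun g => x (some g, i)) (fun _ _ => hx _) (mem_univ g)

lemma m_zero_iff {x : Option W × Fin 5 → ℝ} (hx : ∀ v, 0 ≤ x v) (i : Fin 5) :
    m x i = 0 ↔ ∀ g, x (some g, i) = 0 := by
  unfold m
  rw [sum_eq_zero_iff_of_nonneg (fun g _ => hx _)]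
  simp

lemma sum_split_m (x : Option W × Fin 5 → ℝ) : ∑ v, x v = ∑ i, x (none, i) + ∑ i, m x i := by
  rw [sum_split, sum_comm (s := (univ : Finset W))]
  rfl

lemma exists_of_m_pos {x : Option W × Fin 5 → ℝ} {i : Fin 5} (h : 0 < m x i) :
    ∃ g, x (some g, i) ≠ 0 := by
  by_contra hc
  rw [not_exists] at hc
  have : m x i = 0 := sum_eq_zero fun g _ => not_ne_iff.1 (hc g)
  linarith

/-- `x, y` is a point of the box complex which uses a chord in the direction `0 → 2`. -/
structure StI (x y : Option W × Fin 5 → ℝ) : Prop where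
  x0 : ∀ v, 0 ≤ x v
  y0 : ∀ v, 0 ≤ y v
  sx : ∑ v, x v = 1
  sy : ∑ v, y v = 1
  adj : ∀ u v, x u ≠ 0 → y v ≠ 0 → (KG G).Adj u v
  px : 0 < m x 0
  py : 0 < m y 2

variable {G}

namespace StI

variable {x y : Option W × Fin 5 → ℝ} (H : StI G x y)
include H

lemma xn (i : Fin 5) : x (none, i) = 0 := by
  by_contra hc
  obtain ⟨h, hh⟩ := exists_of_m_pos H.py
  have := (H.adj _ _ hc hh).1
  revert this; decide

lemma yn (i : Fin 5) : y (none, i) = 0 := by
  by_contra hc
  obtain ⟨g, hg⟩ := exists_of_m_pos H.px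
  have := (H.adj _ _ hg hc).1
  revert this; decide

lemma x2 (g : W) : x (some g, 2) = 0 := by
  by_contra hc
  obtain ⟨h, hh⟩ := exists_of_m_pos H.py
  have := (H.adj _ _ hc hh).2
  revert this; decide

lemma x4 (g : W) : x (some g, 4) = 0 := by
  by_contra hc
  obtain ⟨h, hh⟩ := exists_of_m_pos H.py
  have := (H.adj _ _ hc hh).2
  revert this; decide

lemma y0' (h : W) : y (some h, 0) = 0 := by
  by_contra hc
  obtain ⟨g, hg⟩ := exists_of_m_pos H.px
  have := (H.adj _ _ hg hc).2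
  revert this; decide

lemma y3 (h : W) : y (some h, 3) = 0 := by
  by_contra hc
  obtain ⟨g, hg⟩ := exists_of_m_pos H.px
  have := (H.adj _ _ hg hc).2
  revert this; decide

lemma mx2 : m x 2 = 0 := sum_eq_zero fun g _ => H.x2 g
lemma mx4 : m x 4 = 0 := sum_eq_zero fun g _ => H.x4 g
lemma my0 : m y 0 = 0 := sum_eq_zero fun g _ => H.y0' g
lemma my3 : m y 3 = 0 := sum_eq_zero fun g _ => H.y3 g

lemma sumx : m x 0 + m x 1 + m x 3 = 1 := by
  have := H.sx
  rw [sum_split_m] at this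
  simp only [Fin.sum_univ_five, H.xn, H.mx2, H.mx4] at this
  linarith

lemma sumy : m y 1 + m y 2 + m y 4 = 1 := by
  have := H.sy
  rw [sum_split_m] at this
  simp only [Fin.sum_univ_five, H.yn, H.my0, H.my3] at this
  linarith

lemma ex1 {g : W} (hg : x (some g, 1) ≠ 0) (h : W) : y (some h, 1) = 0 ∧ y (some h, 4) = 0 := by
  constructor
  · by_contra hc
    have := (H.adj _ _ hg hc).2
    revert this; decide
  · by_contra hc
    have := (H.adj _ _ hg hc).2
    revert this; decide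

lemma ey1 {h : W} (hh : y (some h, 1) ≠ 0) (g : W) : x (some g, 1) = 0 ∧ x (some g, 3) = 0 := by
  constructor
  · by_contra hc
    have := (H.adj _ _ hc hh).2
    revert this; decide
  · by_contra hc
    have := (H.adj _ _ hc hh).2
    revert this; decide

/-- formula for the first stage on `x` -/
lemma F1x (g : W) : F1 x y (some g, 0) = x (some g, 0) ∧
    F1 x y (some g, 1) = x (some g, 1) - min (x (some g, 1)) (m x 0 * m y 2) ∧
    F1 x y (some g, 2) = 0 ∧
    F1 x y (some g, 3) = x (some g, 3) + min (x (some g, 1)) (m x 0 * m y 2) ∧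
    F1 x y (some g, 4) = 0 := by
  simp [F1, H.x2, H.x4, H.my0, H.x0]

lemma F1y (h : W) : F1 y x (some h, 0) = 0 ∧
    F1 y x (some h, 1) = y (some h, 1) - min (y (some h, 1)) (m x 0 * m y 2) ∧
    F1 y x (some h, 2) = y (some h, 2) ∧
    F1 y x (some h, 3) = 0 ∧
    F1 y x (some h, 4) = y (some h, 4) + min (y (some h, 1)) (m x 0 * m y 2) := by
  simp [F1, H.y0', H.y3, H.my0, H.y0]

lemma F2x (g : W) : F2 x y (some g, 0) = x (some g, 0) - min (x (some g, 0)) (thr (m y 2) (m x 0)) ∧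
    F2 x y (some g, 1) = F1 x y (some g, 1) ∧
    F2 x y (some g, 2) = 0 ∧
    F2 x y (some g, 3) = F1 x y (some g, 3) + min (x (some g, 0)) (thr (m y 2) (m x 0)) ∧
    F2 x y (some g, 4) = 0 := by
  simp [F2, H.x2, (H.F1x g).2.2.2.2, thr_nonneg]

lemma F2y (h : W) : F2 y x (some h, 0) = 0 ∧
    F2 y x (some h, 1) = F1 y x (some h, 1) ∧
    F2 y x (some h, 2) = y (some h, 2) - min (y (some h, 2)) (thr (m x 0) (m y 2)) ∧
    F2 y x (some h, 3) = 0 ∧
    F2 y x (some h, 4) = F1 y x (some h, 4) + min (y (some h, 2)) (thr (m x 0) (m y 2)) := by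
  simp [F2, H.y0', (H.F1y h).2.2.2.1, thr_nonneg]

end StI

/-- Properties of a stage of `x`. -/
structure PX (x f : Option W × Fin 5 → ℝ) : Prop where
  n : ∀ i, f (none, i) = 0
  c2 : ∀ g, f (some g, 2) = 0
  c4 : ∀ g, f (some g, 4) = 0
  e : ∀ g i, f (some g, i) ≠ 0 → ∃ i', x (some g, i') ≠ 0

/-- Properties of a stage of `y`. -/
structure PY (y f : Option W × Fin 5 → ℝ) : Prop where
  n : ∀ i, f (none, i) = 0
  c0 : ∀ g, f (some g, 0) = 0
  c3 : ∀ g, f (some g, 3) = 0
  e : ∀ g i, f (some g, i) ≠ 0 → ∃ i', y (some g, i') ≠ 0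

lemma combine {x y f f' : Option W × Fin 5 → ℝ} (H : StI G x y) (hf : PX x f) (hf' : PY y f')
    (hA : ∀ g h, f (some g, 1) ≠ 0 → f' (some h, 1) = 0 ∧ f' (some h, 4) = 0)
    (hB : ∀ g h, f' (some h, 1) ≠ 0 → f (some g, 3) = 0) (u v : Option W × Fin 5)
    (hu : f u ≠ 0) (hv : f' v ≠ 0) : (KG G).Adj u v ∧ (KG G).Adj v u := by
  rw [SimpleGraph.adj_comm, and_self]
  apply SimpleGraph.Adj.symm
  obtain ⟨g | g, i⟩ := u
  · exact absurd (hf.n i) hu
  obtain ⟨h | h, j⟩ := v
  · exact absurd (hf'.n j) hv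
  obtain ⟨i', hi'⟩ := hf.e g i hu
  obtain ⟨j', hj'⟩ := hf'.e h j hv
  refine ⟨(H.adj _ _ hi' hj').1, ?_⟩
  have q2 := hf.c2 g
  have q4 := hf.c4 g
  have q0 := hf'.c0 h
  have q3 := hf'.c3 h
  have a := hA g h
  have b := hB g h
  fin_cases i <;> fin_cases j <;> simp at hu hv <;> first | (decide) | (exfalso; simp_all)


lemma ne_of_sub_min_ne {a b : ℝ} (ha : 0 ≤ a) (hb : 0 ≤ b) (h : a - min a b ≠ 0) : a ≠ 0 ∧ b < a := by
  constructor
  · rintro rfl
    rw [min_eq_left hb] at h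
    exact h (by ring)
  · by_contra hc
    rw [min_eq_left (not_lt.1 hc)] at h
    exact h (by ring)

lemma ne_of_add_min_ne {a b c : ℝ} (h : a + min b c ≠ 0) : a ≠ 0 ∨ min b c ≠ 0 := by
  by_contra hc
  rw [not_or, not_ne_iff, not_ne_iff] at hc
  exact h (by rw [hc.1, hc.2, add_zero])

lemma ne_of_min_ne {b c : ℝ} (hc : 0 ≤ c) (h : min b c ≠ 0) : b ≠ 0 := by
  rintro rfl
  rw [min_eq_left hc] at h
  exact h rfl

namespace StI

variable {x y : Option W × Fin 5 → ℝ} (H : StI G x y)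
include H

lemma snn : 0 ≤ m x 0 * m y 2 := mul_nonneg H.px.le H.py.le

lemma PX0 : PX x x := ⟨H.xn, H.x2, H.x4, fun _ i hi => ⟨i, hi⟩⟩
lemma PY0 : PY y y := ⟨H.yn, H.y0', H.y3, fun _ i hi => ⟨i, hi⟩⟩

lemma PX1 : PX x (F1 x y) := by
  refine ⟨H.xn, fun g => (H.F1x g).2.2.1, fun g => (H.F1x g).2.2.2.2, fun g i hi => ?_⟩
  obtain ⟨e0, e1, e2, e3, e4⟩ := H.F1x g
  fin_cases i
  · exact ⟨0, hi⟩
  · change F1 x y (some g, 1) ≠ 0 at hi
    rw [e1] at hi
    exact ⟨1, (ne_of_sub_min_ne (H.x0 _) H.snn hi).1⟩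
  · exact absurd e2 hi
  · change F1 x y (some g, 3) ≠ 0 at hi
    rw [e3] at hi
    rcases ne_of_add_min_ne hi with h | h
    · exact ⟨3, h⟩
    · exact ⟨1, ne_of_min_ne H.snn h⟩
  · exact absurd e4 hi

lemma PY1 : PY y (F1 y x) := by
  refine ⟨H.yn, fun g => (H.F1y g).1, fun g => (H.F1y g).2.2.2.1, fun g i hi => ?_⟩
  obtain ⟨e0, e1, e2, e3, e4⟩ := H.F1y g
  fin_cases i
  · exact absurd e0 hi
  · change F1 y x (some g, 1) ≠ 0 at hi
    rw [e1] at hi
    exact ⟨1, (ne_of_sub_min_ne (H.y0 _) H.snn hi).1⟩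
  · change F1 y x (some g, 2) ≠ 0 at hi
    rw [e2] at hi
    exact ⟨2, hi⟩
  · exact absurd e3 hi
  · change F1 y x (some g, 4) ≠ 0 at hi
    rw [e4] at hi
    rcases ne_of_add_min_ne hi with h | h
    · exact ⟨4, h⟩
    · exact ⟨1, ne_of_min_ne H.snn h⟩

lemma PX2 : PX x (F2 x y) := by
  refine ⟨H.xn, fun g => (H.F2x g).2.2.1, fun g => (H.F2x g).2.2.2.2, fun g i hi => ?_⟩
  obtain ⟨e0, e1, e2, e3, e4⟩ := H.F2x g
  fin_cases i
  · change F2 x y (some g, 0) ≠ 0 at hi
    rw [e0] at hi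
    exact ⟨0, (ne_of_sub_min_ne (H.x0 _) (thr_nonneg _ _) hi).1⟩
  · change F2 x y (some g, 1) ≠ 0 at hi
    rw [e1] at hi
    exact H.PX1.e _ _ hi
  · exact absurd e2 hi
  · change F2 x y (some g, 3) ≠ 0 at hi
    rw [e3] at hi
    rcases ne_of_add_min_ne hi with h | h
    · exact H.PX1.e _ _ h
    · exact ⟨0, ne_of_min_ne (thr_nonneg _ _) h⟩
  · exact absurd e4 hi

lemma PY2 : PY y (F2 y x) := by
  refine ⟨H.yn, fun g => (H.F2y g).1, fun g => (H.F2y g).2.2.2.1, fun g i hi => ?_⟩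
  obtain ⟨e0, e1, e2, e3, e4⟩ := H.F2y g
  fin_cases i
  · exact absurd e0 hi
  · change F2 y x (some g, 1) ≠ 0 at hi
    rw [e1] at hi
    exact H.PY1.e _ _ hi
  · change F2 y x (some g, 2) ≠ 0 at hi
    rw [e2] at hi
    exact ⟨2, (ne_of_sub_min_ne (H.y0 _) (thr_nonneg _ _) hi).1⟩
  · exact absurd e3 hi
  · change F2 y x (some g, 4) ≠ 0 at hi
    rw [e4] at hi
    rcases ne_of_add_min_ne hi with h | h
    · exact H.PY1.e _ _ h
    · exact ⟨2, ne_of_min_ne (thr_nonneg _ _) h⟩

/-- if `x` has mass on class 1 then the stages 0 and 1 of `y` have none on classes 1, 4 -/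
lemma A01 {g : W} (hg : x (some g, 1) ≠ 0) (h : W) :
    F1 y x (some h, 1) = 0 ∧ F1 y x (some h, 4) = 0 := by
  obtain ⟨e0, e1, e2, e3, e4⟩ := H.F1y h
  rw [e1, e4, (H.ex1 hg h).1, (H.ex1 hg h).2, min_eq_left H.snn]
  constructor <;> ring

lemma B01 {h : W} (hh : y (some h, 1) ≠ 0) (g : W) :
    F1 x y (some g, 1) = 0 ∧ F1 x y (some g, 3) = 0 := by
  obtain ⟨e0, e1, e2, e3, e4⟩ := H.F1x g
  rw [e1, e3, (H.ey1 hh g).1, (H.ey1 hh g).2, min_eq_left H.snn]
  constructor <;> ring

lemma x1_of_F1 {g : W} (hg : F1 x y (some g, 1) ≠ 0) :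
    x (some g, 1) ≠ 0 ∧ m x 0 * m y 2 < x (some g, 1) := by
  rw [(H.F1x g).2.1] at hg
  exact ne_of_sub_min_ne (H.x0 _) H.snn hg

lemma y1_of_F1 {h : W} (hh : F1 y x (some h, 1) ≠ 0) :
    y (some h, 1) ≠ 0 ∧ m x 0 * m y 2 < y (some h, 1) := by
  rw [(H.F1y h).2.1] at hh
  exact ne_of_sub_min_ne (H.y0 _) H.snn hh

/-- the real inequality behind the second stage -/
lemma thr_x {g : W} (hg : F1 x y (some g, 1) ≠ 0) : thr (m x 0) (m y 2) = 0 := by
  obtain ⟨h1, h2⟩ := H.x1_of_F1 hg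
  have y1 : m y 1 = 0 := sum_eq_zero fun h _ => (H.ex1 h1 h).1
  have y4 : m y 4 = 0 := sum_eq_zero fun h _ => (H.ex1 h1 h).2
  have sy := H.sumy
  have sx := H.sumx
  have l1 := le_m H.x0 g 1
  have l3 := m_nonneg H.x0 3
  have : m y 2 = 1 := by linarith
  rw [this] at h2 ⊢
  unfold thr
  rw [max_eq_left]
  linarith

lemma thr_y {h : W} (hh : F1 y x (some h, 1) ≠ 0) : thr (m y 2) (m x 0) = 0 := by
  obtain ⟨h1, h2⟩ := H.y1_of_F1 hh
  have x1 : m x 1 = 0 := sum_eq_zero fun g _ => (H.ey1 h1 g).1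
  have x3 : m x 3 = 0 := sum_eq_zero fun g _ => (H.ey1 h1 g).2
  have sy := H.sumy
  have sx := H.sumx
  have l1 := le_m H.y0 h 1
  have l3 := m_nonneg H.y0 4
  have : m x 0 = 1 := by linarith
  rw [this] at h2 ⊢
  unfold thr
  rw [max_eq_left]
  linarith

lemma A12 {g : W} (hg : F1 x y (some g, 1) ≠ 0) (h : W) :
    F2 y x (some h, 1) = 0 ∧ F2 y x (some h, 4) = 0 := by
  obtain ⟨e0, e1, e2, e3, e4⟩ := H.F2y h
  have h1 := (H.x1_of_F1 hg).1
  rw [e1, e4, (H.A01 h1 h).1, (H.A01 h1 h).2, H.thr_x hg, min_eq_right (H.y0 _)]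
  constructor <;> ring

lemma B12 {h : W} (hh : F1 y x (some h, 1) ≠ 0) (g : W) :
    F2 x y (some g, 1) = 0 ∧ F2 x y (some g, 3) = 0 := by
  obtain ⟨e0, e1, e2, e3, e4⟩ := H.F2x g
  have h1 := (H.y1_of_F1 hh).1
  rw [e1, e3, (H.B01 h1 g).1, (H.B01 h1 g).2, H.thr_y hh, min_eq_right (H.x0 _)]
  constructor <;> ring

lemma c01 (u v : Option W × Fin 5) (hu : x u ≠ 0) (hv : F1 y x v ≠ 0) :
    (KG G).Adj u v ∧ (KG G).Adj v u := by
  refine combine H H.PX0 H.PY1 (fun g h hg => H.A01 hg h) (fun g h hh => ?_) u v hu hv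
  exact (H.ey1 (H.y1_of_F1 hh).1 g).2

lemma c10 (u v : Option W × Fin 5) (hu : F1 x y u ≠ 0) (hv : y v ≠ 0) :
    (KG G).Adj u v ∧ (KG G).Adj v u := by
  refine combine H H.PX1 H.PY0 (fun g h hg => ?_) (fun g h hh => ?_) u v hu hv
  · exact H.ex1 (H.x1_of_F1 hg).1 h
  · exact (H.B01 hh g).2

lemma c11 (u v : Option W × Fin 5) (hu : F1 x y u ≠ 0) (hv : F1 y x v ≠ 0) :
    (KG G).Adj u v ∧ (KG G).Adj v u := by
  refine combine H H.PX1 H.PY1 (fun g h hg => ?_) (fun g h hh => ?_) u v hu hv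
  · exact H.A01 (H.x1_of_F1 hg).1 h
  · exact (H.B01 (H.y1_of_F1 hh).1 g).2

lemma c12 (u v : Option W × Fin 5) (hu : F1 x y u ≠ 0) (hv : F2 y x v ≠ 0) :
    (KG G).Adj u v ∧ (KG G).Adj v u := by
  refine combine H H.PX1 H.PY2 (fun g h hg => H.A12 hg h) (fun g h hh => ?_) u v hu hv
  rw [(H.F2y h).2.1] at hh
  exact (H.B01 (H.y1_of_F1 hh).1 g).2

lemma c21 (u v : Option W × Fin 5) (hu : F2 x y u ≠ 0) (hv : F1 y x v ≠ 0) :
    (KG G).Adj u v ∧ (KG G).Adj v u := by
  refine combine H H.PX2 H.PY1 (fun g h hg => ?_) (fun g h hh => (H.B12 hh g).2) u v hu hv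
  rw [(H.F2x g).2.1] at hg
  exact H.A01 (H.x1_of_F1 hg).1 h

lemma c22 (u v : Option W × Fin 5) (hu : F2 x y u ≠ 0) (hv : F2 y x v ≠ 0) :
    (KG G).Adj u v ∧ (KG G).Adj v u := by
  refine combine H H.PX2 H.PY2 (fun g h hg => ?_) (fun g h hh => ?_) u v hu hv
  · rw [(H.F2x g).2.1] at hg
    exact H.A12 hg h
  · rw [(H.F2y h).2.1] at hh
    exact (H.B12 hh g).2

/-- no chord is used after the second stage -/
lemma nochord (g h : W) (hg : F2 x y (some g, 0) ≠ 0) : F2 y x (some h, 2) = 0 := by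
  by_contra hh
  rw [(H.F2x g).1] at hg
  rw [(H.F2y h).2.2.1] at hh
  have h1 := (ne_of_sub_min_ne (H.x0 _) (thr_nonneg _ _) hg).2
  have h2 := (ne_of_sub_min_ne (H.y0 _) (thr_nonneg _ _) hh).2
  have h3 : 2 * m y 2 - m x 0 ≤ thr (m y 2) (m x 0) := le_max_right _ _
  have h4 : 2 * m x 0 - m y 2 ≤ thr (m x 0) (m y 2) := le_max_right _ _
  have h5 := le_m H.x0 g 0
  have h6 := le_m H.y0 h 2
  linarith

end StI


/-- Adjacency without the chords. -/
def Rel0 (G : SimpleGraph W) : Option W × Fin 5 → Option W × Fin 5 → Prop :=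
  KRel G (fun _ _ => False)

omit [Fintype W] in
lemma not_chord_of (u v : Option W × Fin 5) (h : (KG G).Adj u v)
    (h1 : ∀ g h, u = (some g, 0) → v = (some h, 2) → False)
    (h2 : ∀ g h, u = (some g, 2) → v = (some h, 0) → False) : Rel0 G u v := by
  obtain ⟨g | g, i⟩ := u <;> obtain ⟨h' | h', j⟩ := v
  · exact h
  · exact h
  · exact h
  · refine ⟨h.1, Or.inl ?_⟩
    rcases h.2 with h3 | ⟨rfl, rfl⟩ | ⟨rfl, rfl⟩
    · exact h3
    · exact (h1 _ _ rfl rfl).elim
    · exact (h2 _ _ rfl rfl).elim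

omit [Fintype W] in
lemma Rel0_symm {u v : Option W × Fin 5} (h : Rel0 G u v) : Rel0 G v u := by
  obtain ⟨g | g, i⟩ := u <;> obtain ⟨h' | h', j⟩ := v
  · exact h.symm
  · exact ⟨h.1, h.2.symm⟩
  · exact ⟨h.1, h.2.symm⟩
  · refine ⟨h.1.symm, Or.inl ?_⟩
    rcases h.2 with h3 | h3
    · exact h3.symm
    · exact h3.elim

lemma StI.c22' {x y : Option W × Fin 5 → ℝ} (H : StI G x y) (u v : Option W × Fin 5)
    (hu : F2 x y u ≠ 0) (hv : F2 y x v ≠ 0) : Rel0 G u v := by
  refine not_chord_of u v (H.c22 u v hu hv).1 ?_ ?_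
  · rintro g h rfl rfl
    exact hv (H.nochord g h hu)
  · rintro g h rfl rfl
    exact hu (H.PX2.c2 g)

/-- A point of the box complex not using any chord. -/
structure StN (G : SimpleGraph W) (x y : Option W × Fin 5 → ℝ) : Prop where
  x0 : ∀ v, 0 ≤ x v
  y0 : ∀ v, 0 ≤ y v
  adj : ∀ u v, x u ≠ 0 → y v ≠ 0 → (KG G).Adj u v
  s : m x 0 * m y 2 = 0
  t : m y 0 * m x 2 = 0

lemma min_thr_zero {a b c : ℝ} (ha : 0 ≤ a) (hab : a ≤ b) (h : b * c = 0) :
    min a (thr c b) = 0 := by
  rcases mul_eq_zero.1 h with h1 | h1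
  · have : a = 0 := by linarith
    rw [this, min_eq_left (thr_nonneg _ _)]
  · have : thr c b = 0 := by
      unfold thr
      rw [h1, max_eq_left]
      linarith
    rw [this, min_eq_right ha]

namespace StN

variable {x y : Option W × Fin 5 → ℝ} (H : StN G x y)
include H

lemma symm : StN G y x :=
  ⟨H.y0, H.x0, fun u v hu hv => (H.adj v u hv hu).symm, H.t, H.s⟩

lemma F1_eq : F1 x y = x := by
  funext v
  obtain ⟨g | g, i⟩ := v
  · rfl
  · have h0 := H.x0 (some g, 1)
    fin_cases i <;> simp [F1, H.s, H.t, min_eq_right h0]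

lemma F2_eq : F2 x y = x := by
  funext v
  obtain ⟨g | g, i⟩ := v
  · rfl
  · have h0 := min_thr_zero (H.x0 (some g, 0)) (le_m H.x0 g 0) H.s
    have h2 := min_thr_zero (H.x0 (some g, 2)) (le_m H.x0 g 2) (by rw [mul_comm]; exact H.t)
    fin_cases i <;> simp [F2, H.F1_eq, h0, h2]

lemma rel0 (u v : Option W × Fin 5) (hu : x u ≠ 0) (hv : y v ≠ 0) : Rel0 G u v := by
  refine not_chord_of u v (H.adj u v hu hv) ?_ ?_
  · rintro g h rfl rfl
    have h1 : 0 < x (some g, 0) := lt_of_le_of_ne (H.x0 _) (Ne.symm hu)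
    have h2 : 0 < y (some h, 2) := lt_of_le_of_ne (H.y0 _) (Ne.symm hv)
    have h3 := le_m H.x0 g 0
    have h4 := le_m H.y0 h 2
    have := H.s
    have h5 : 0 < m x 0 * m y 2 := mul_pos (by linarith) (by linarith)
    linarith
  · rintro g h rfl rfl
    have h1 : 0 < x (some g, 2) := lt_of_le_of_ne (H.x0 _) (Ne.symm hu)
    have h2 : 0 < y (some h, 0) := lt_of_le_of_ne (H.y0 _) (Ne.symm hv)
    have h3 := le_m H.x0 g 2
    have h4 := le_m H.y0 h 0
    have := H.t
    have h5 : 0 < m y 0 * m x 2 := mul_pos (by linarith) (by linarith)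
    linarith

end StN

lemma trichotomy {x y : Option W × Fin 5 → ℝ} (h : (x, y) ∈ boxComplex (KG G)) :
    StI G x y ∨ StI G y x ∨ StN G x y := by
  obtain ⟨h1, h2, h3⟩ := (mem_boxComplex_iff _ _).1 h
  have a1 := m_nonneg h1.1 0
  have a2 := m_nonneg h2.1 2
  have a3 := m_nonneg h2.1 0
  have a4 := m_nonneg h1.1 2
  by_cases hs : m x 0 * m y 2 = 0
  · by_cases ht : m y 0 * m x 2 = 0
    · exact Or.inr (Or.inr ⟨h1.1, h2.1, h3, hs, ht⟩)
    · exact Or.inr (Or.inl ⟨h2.1, h1.1, h2.2, h1.2, fun u v hu hv => (h3 v u hv hu).symm,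
        lt_of_le_of_ne a3 (Ne.symm (left_ne_zero_of_mul ht)),
        lt_of_le_of_ne a4 (Ne.symm (right_ne_zero_of_mul ht))⟩)
  · exact Or.inl ⟨h1.1, h2.1, h1.2, h2.2, h3,
        lt_of_le_of_ne a1 (Ne.symm (left_ne_zero_of_mul hs)),
        lt_of_le_of_ne a2 (Ne.symm (right_ne_zero_of_mul hs))⟩

lemma swap_mem {x y : Option W × Fin 5 → ℝ} (h : (x, y) ∈ boxComplex (KG G)) :
    (y, x) ∈ boxComplex (KG G) := (swapBox (KG G) ⟨(x, y), h⟩).2

section claims

variable {x y : Option W × Fin 5 → ℝ} (h : (x, y) ∈ boxComplex (KG G))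
include h

lemma d01 (u v : Option W × Fin 5) (hu : x u ≠ 0) (hv : F1 y x v ≠ 0) : (KG G).Adj u v := by
  rcases trichotomy h with H | H | H
  · exact (H.c01 u v hu hv).1
  · exact (H.c10 v u hv hu).2
  · rw [H.symm.F1_eq] at hv
    exact H.adj u v hu hv

lemma d11 (u v : Option W × Fin 5) (hu : F1 x y u ≠ 0) (hv : F1 y x v ≠ 0) : (KG G).Adj u v := by
  rcases trichotomy h with H | H | H
  · exact (H.c11 u v hu hv).1
  · exact (H.c11 v u hv hu).2
  · rw [H.symm.F1_eq] at hv
    rw [H.F1_eq] at hu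
    exact H.adj u v hu hv

lemma d12 (u v : Option W × Fin 5) (hu : F1 x y u ≠ 0) (hv : F2 y x v ≠ 0) : (KG G).Adj u v := by
  rcases trichotomy h with H | H | H
  · exact (H.c12 u v hu hv).1
  · exact (H.c21 v u hv hu).2
  · rw [H.symm.F2_eq] at hv
    rw [H.F1_eq] at hu
    exact H.adj u v hu hv

lemma d22 (u v : Option W × Fin 5) (hu : F2 x y u ≠ 0) (hv : F2 y x v ≠ 0) : Rel0 G u v := by
  rcases trichotomy h with H | H | H
  · exact H.c22' u v hu hv
  · exact Rel0_symm (H.c22' v u hv hu)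
  · rw [H.symm.F2_eq] at hv
    rw [H.F2_eq] at hu
    exact H.rel0 u v hu hv

lemma F1_nonneg (v : Option W × Fin 5) : 0 ≤ F1 x y v := by
  obtain ⟨h1, h2, h3⟩ := (mem_boxComplex_iff _ _).1 h
  have a1 := m_nonneg h1.1 0
  have a2 := m_nonneg h2.1 2
  have a3 := m_nonneg h2.1 0
  have a4 := m_nonneg h1.1 2
  have s0 := mul_nonneg a1 a2
  have t0 := mul_nonneg a3 a4
  obtain ⟨g | g, i⟩ := v
  · exact h1.1 _
  · have p0 := h1.1 (some g, 0)
    have p1 := h1.1 (some g, 1)
    have p2 := h1.1 (some g, 2)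
    have p3 := h1.1 (some g, 3)
    have p4 := h1.1 (some g, 4)
    have q1 : 0 ≤ min (x (some g, 1)) (m x 0 * m y 2) := le_min p1 s0
    have q2 : 0 ≤ min (x (some g, 1)) (m y 0 * m x 2) := le_min p1 t0
    have q3 : 0 ≤ x (some g, 1) - min (x (some g, 1)) (m x 0 * m y 2) -
        min (x (some g, 1)) (m y 0 * m x 2) := by
      have l1 := min_le_left (x (some g, 1)) (m x 0 * m y 2)
      have l2 := min_le_left (x (some g, 1)) (m y 0 * m x 2)
      rcases trichotomy h with H | H | H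
      · rw [H.my0, zero_mul, min_eq_right p1]; linarith
      · rw [H.my0, zero_mul, min_eq_right p1]; linarith
      · rw [H.s, H.t, min_eq_right p1]; linarith
    fin_cases i <;> simp only [F1] <;> simp only [Fin.zero_eta, Fin.mk_one, Fin.reduceFinMk,
      Fin.isValue, Matrix.cons_val] <;> first | assumption | positivity

lemma F2_nonneg (v : Option W × Fin 5) : 0 ≤ F2 x y v := by
  obtain ⟨h1, h2, h3⟩ := (mem_boxComplex_iff _ _).1 h
  obtain ⟨g | g, i⟩ := v
  · exact h1.1 _
  · have p0 := h1.1 (some g, 0)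
    have p2 := h1.1 (some g, 2)
    have r1 := F1_nonneg h (some g, 1)
    have r3 := F1_nonneg h (some g, 3)
    have r4 := F1_nonneg h (some g, 4)
    have q1 : 0 ≤ min (x (some g, 0)) (thr (m y 2) (m x 0)) := le_min p0 (thr_nonneg _ _)
    have q2 : 0 ≤ min (x (some g, 2)) (thr (m y 0) (m x 2)) := le_min p2 (thr_nonneg _ _)
    have l1 := min_le_left (x (some g, 0)) (thr (m y 2) (m x 0))
    have l2 := min_le_left (x (some g, 2)) (thr (m y 0) (m x 2))
    fin_cases i <;> simp only [F2] <;> simp only [Fin.zero_eta, Fin.mk_one, Fin.reduceFinMk,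
      Fin.isValue, Matrix.cons_val] <;> linarith

lemma F1_mem : F1 x y ∈ stdSimplex ℝ (Option W × Fin 5) :=
  ⟨F1_nonneg h, by rw [sum_F1]; exact ((mem_boxComplex_iff _ _).1 h).1.2⟩

lemma F2_mem : F2 x y ∈ stdSimplex ℝ (Option W × Fin 5) :=
  ⟨F2_nonneg h, by rw [sum_F2]; exact ((mem_boxComplex_iff _ _).1 h).1.2⟩

lemma R_nonneg (i : Fin 5) : 0 ≤ R x y i :=
  add_nonneg (F2_nonneg h _) (sum_nonneg fun _ _ => F2_nonneg h _)

lemma R_mem : R x y ∈ stdSimplex ℝ (Fin 5) :=
  ⟨R_nonneg h, by rw [sum_R]; exact ((mem_boxComplex_iff _ _).1 h).1.2⟩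

lemma F3_mem : F3 x y ∈ stdSimplex ℝ (Option W × Fin 5) := by
  refine ⟨fun v => ?_, by rw [sum_F3]; exact ((mem_boxComplex_iff _ _).1 h).1.2⟩
  obtain ⟨g | g, i⟩ := v
  · have r0 := R_nonneg h 0
    have r2 := R_nonneg h 2
    have p1 := F2_nonneg h (none, 1)
    have p3 := F2_nonneg h (none, 3)
    have p4 := F2_nonneg h (none, 4)
    fin_cases i <;> simp only [F3] <;> simp only [Fin.zero_eta, Fin.mk_one, Fin.reduceFinMk,
      Fin.isValue, Matrix.cons_val] <;> assumption
  · have p1 := F2_nonneg h (some g, 1)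
    have p3 := F2_nonneg h (some g, 3)
    have p4 := F2_nonneg h (some g, 4)
    fin_cases i <;> simp only [F3] <;> simp only [Fin.zero_eta, Fin.mk_one, Fin.reduceFinMk,
      Fin.isValue, Matrix.cons_val] <;> first | assumption | exact le_rfl

lemma F4_mem : F4 x y ∈ stdSimplex ℝ (Option W × Fin 5) := by
  refine ⟨fun v => ?_, by rw [sum_F4]; exact ((mem_boxComplex_iff _ _).1 h).1.2⟩
  obtain ⟨g | g, i⟩ := v
  · exact R_nonneg h i
  · exact le_rfl

end claims

/-- the first fold -/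
def φ1 : Option W × Fin 5 → Option W × Fin 5
  | (none, i) => (none, i)
  | (some g, i) => if i = 0 ∨ i = 2 then (none, i) else (some g, i)

/-- the second fold -/
def φ2 (v : Option W × Fin 5) : Option W × Fin 5 := (none, v.2)

lemma R_ne {x y : Option W × Fin 5 → ℝ} {i : Fin 5} (h : R x y i ≠ 0) :
    ∃ u, F2 x y u ≠ 0 ∧ u.2 = i := by
  by_contra hc
  rw [not_exists] at hc
  apply h
  unfold R
  have e : ∀ o, F2 x y (o, i) = 0 := fun o => by
    by_contra h1
    exact hc (o, i) ⟨h1, rfl⟩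
  simp [e]

lemma F4_ne {x y : Option W × Fin 5 → ℝ} {v : Option W × Fin 5} (h : F4 x y v ≠ 0) :
    ∃ u, F2 x y u ≠ 0 ∧ φ2 u = v := by
  obtain ⟨g | g, i⟩ := v
  · obtain ⟨u, hu, rfl⟩ := R_ne h
    exact ⟨u, hu, rfl⟩
  · exact absurd rfl h

lemma F3_ne {x y : Option W × Fin 5 → ℝ} {v : Option W × Fin 5} (h : F3 x y v ≠ 0) :
    ∃ u, F2 x y u ≠ 0 ∧ φ1 u = v := by
  have key : ∀ i : Fin 5, (i = 0 ∨ i = 2) → R x y i ≠ 0 →
      ∃ u, F2 x y u ≠ 0 ∧ φ1 u = (none, i) := by
    intro i hi hR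
    obtain ⟨⟨g | g, j⟩, hu, rfl⟩ := R_ne hR
    · exact ⟨_, hu, rfl⟩
    · exact ⟨_, hu, by simp only [φ1]; rw [if_pos hi]⟩
  obtain ⟨g | g, i⟩ := v
  · fin_cases i
    · exact key 0 (by decide) h
    · exact ⟨(none, 1), h, rfl⟩
    · exact key 2 (by decide) h
    · exact ⟨(none, 3), h, rfl⟩
    · exact ⟨(none, 4), h, rfl⟩
  · fin_cases i
    · exact absurd rfl h
    · exact ⟨(some g, 1), h, rfl⟩
    · exact absurd rfl h
    · exact ⟨(some g, 3), h, rfl⟩
    · exact ⟨(some g, 4), h, rfl⟩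

omit [Fintype W] in
lemma rel_cyc {u w : Option W × Fin 5} (h : Rel0 G u w) : cyc u.2 w.2 := by
  obtain ⟨g | g, i⟩ := u <;> obtain ⟨h' | h', j⟩ := w
  · exact h
  · exact h.2
  · exact h.2
  · rcases h.2 with h3 | h3
    · exact h3
    · exact h3.elim

omit [Fintype W] in
lemma rel_adj {u w : Option W × Fin 5} (h : Rel0 G u w) : (KG G).Adj u w := by
  obtain ⟨g | g, i⟩ := u <;> obtain ⟨h' | h', j⟩ := w
  · exact h
  · exact h
  · exact h
  · exact ⟨h.1, Or.inl (rel_cyc h)⟩

lemma cyc_coned : ∀ i j : Fin 5, cyc i j → (j = 0 ∨ j = 2) → coned i := by decide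

lemma coned_of : ∀ i : Fin 5, ¬ (i = 0 ∨ i = 2) → coned i := by decide

lemma not_coned_of : ∀ i : Fin 5, coned i → ¬ (i = 0 ∨ i = 2) := by decide

omit [Fintype W] in
lemma rel_1 {u w : Option W × Fin 5} (h : Rel0 G u w) : (KG G).Adj u (φ1 w) := by
  have hc := rel_cyc h
  obtain ⟨g | g, i⟩ := u <;> obtain ⟨h' | h', j⟩ := w
  · exact h
  · simp only [φ1]
    rw [if_neg (not_coned_of j h.1)]
    exact h
  · exact h
  · simp only [φ1]
    split_ifs with h1
    · exact ⟨cyc_coned i j hc h1, hc⟩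
    · exact rel_adj h

lemma rel_11 {u w : Option W × Fin 5} (h : Rel0 G u w) : (KG G).Adj (φ1 u) (φ1 w) := by
  have hc := rel_cyc h
  obtain ⟨g | g, i⟩ := u
  · exact rel_1 h
  · simp only [φ1]
    split_ifs with h1
    · obtain ⟨h' | h', j⟩ := w
      · exact hc
      · have hj : coned j := cyc_coned j i hc.symm h1
        simp only
        rw [if_neg (not_coned_of j hj)]
        exact ⟨hj, hc⟩
    · exact rel_1 h

omit [Fintype W] in
lemma rel_12 {u w : Option W × Fin 5} (h : Rel0 G u w) : (KG G).Adj (φ1 u) (φ2 w) := by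
  have hc := rel_cyc h
  obtain ⟨g | g, i⟩ := u
  · exact hc
  · simp only [φ1]
    split_ifs with h1
    · exact hc
    · exact ⟨coned_of i h1, hc⟩

omit [Fintype W] in
lemma rel_22 {u w : Option W × Fin 5} (h : Rel0 G u w) : (KG G).Adj (φ2 u) (φ2 w) :=
  rel_cyc h

/-- A stage: a formula defining an equivariant self-map of the box complex. -/
structure Stage (G : SimpleGraph W)
    (F : (Option W × Fin 5 → ℝ) → (Option W × Fin 5 → ℝ) → (Option W × Fin 5 → ℝ)) : Prop where
  cont : Continuous (fun p : (Option W × Fin 5 → ℝ) × (Option W × Fin 5 → ℝ) => F p.1 p.2)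
  mem : ∀ x y, (x, y) ∈ boxComplex (KG G) → F x y ∈ stdSimplex ℝ (Option W × Fin 5)
  adj : ∀ x y, (x, y) ∈ boxComplex (KG G) → ∀ u v, F x y u ≠ 0 → F y x v ≠ 0 → (KG G).Adj u v

/-- The self-map of the box complex defined by a stage. -/
def Stage.map {F : (Option W × Fin 5 → ℝ) → (Option W × Fin 5 → ℝ) → (Option W × Fin 5 → ℝ)}
    (h : Stage G F) : C(boxComplex (KG G), boxComplex (KG G)) where
  toFun p := ⟨(F p.1.1 p.1.2, F p.1.2 p.1.1), by
    rw [mem_boxComplex_iff]
    exact ⟨h.mem _ _ p.2, h.mem _ _ (swap_mem p.2), h.adj _ _ p.2⟩⟩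
  continuous_toFun := by
    refine Continuous.subtype_mk ?_ _
    refine Continuous.prodMk ?_ ?_
    · exact h.cont.comp continuous_subtype_val
    · exact h.cont.comp (continuous_swap.comp continuous_subtype_val)

lemma Stage.homotopic
    {F F' : (Option W × Fin 5 → ℝ) → (Option W × Fin 5 → ℝ) → (Option W × Fin 5 → ℝ)}
    (h : Stage G F) (h' : Stage G F')
    (hc : ∀ x y, (x, y) ∈ boxComplex (KG G) → ∀ u v, F x y u ≠ 0 → F' y x v ≠ 0 →
      (KG G).Adj u v) : Z2Homotopic (swapBox (KG G)) (swapBox (KG G)) h.map h'.map := by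
  apply homotopic_of_contiguous
  · intro p; rfl
  · intro p; rfl
  · intro p u v hu hv
    exact hc _ _ p.2 u v hu hv

lemma stage0 : Stage G (fun x _ => x) :=
  ⟨continuous_fst, fun _ _ h => ((mem_boxComplex_iff _ _).1 h).1,
    fun _ _ h => ((mem_boxComplex_iff _ _).1 h).2.2⟩

lemma stage1 : Stage G F1 := ⟨F1_cont, fun _ _ h => F1_mem h, fun _ _ h => d11 h⟩

lemma stage2 : Stage G F2 :=
  ⟨F2_cont, fun _ _ h => F2_mem h, fun _ _ h u v hu hv => rel_adj (d22 h u v hu hv)⟩

lemma stage3 : Stage G F3 :=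
  ⟨F3_cont, fun _ _ h => F3_mem h, fun _ _ h u v hu hv => by
    obtain ⟨u', hu', rfl⟩ := F3_ne hu
    obtain ⟨v', hv', rfl⟩ := F3_ne hv
    exact rel_11 (d22 h u' v' hu' hv')⟩

lemma stage4 : Stage G F4 :=
  ⟨F4_cont, fun _ _ h => F4_mem h, fun _ _ h u v hu hv => by
    obtain ⟨u', hu', rfl⟩ := F4_ne hu
    obtain ⟨v', hv', rfl⟩ := F4_ne hv
    exact rel_22 (d22 h u' v' hu' hv')⟩

lemma homotopic04 : Z2Homotopic (swapBox (KG G)) (swapBox (KG G))
    (stage0 (G := G)).map (stage4 (G := G)).map := by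
  have h01 : Z2Homotopic (swapBox (KG G)) (swapBox (KG G))
      (stage0 (G := G)).map (stage1 (G := G)).map :=
    Stage.homotopic _ _ fun x y h u v hu hv => d01 h u v hu hv
  have h12 : Z2Homotopic (swapBox (KG G)) (swapBox (KG G))
      (stage1 (G := G)).map (stage2 (G := G)).map :=
    Stage.homotopic _ _ fun x y h u v hu hv => d12 h u v hu hv
  have h23 : Z2Homotopic (swapBox (KG G)) (swapBox (KG G))
      (stage2 (G := G)).map (stage3 (G := G)).map :=
    Stage.homotopic _ _ fun x y h u v hu hv => by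
      obtain ⟨v', hv', rfl⟩ := F3_ne hv
      exact rel_1 (d22 h u v' hu hv')
  have h34 : Z2Homotopic (swapBox (KG G)) (swapBox (KG G))
      (stage3 (G := G)).map (stage4 (G := G)).map :=
    Stage.homotopic _ _ fun x y h u v hu hv => by
      obtain ⟨u', hu', rfl⟩ := F3_ne hu
      obtain ⟨v', hv', rfl⟩ := F4_ne hv
      exact rel_12 (d22 h u' v' hu' hv')
  exact h01.trans (h12.trans (h23.trans h34))

/-- extension by zero -/
def iota (a : Fin 5 → ℝ) : Option W × Fin 5 → ℝ
  | (none, i) => a i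
  | (some _, _) => 0

lemma iota_mem {a : Fin 5 → ℝ} (h : a ∈ stdSimplex ℝ (Fin 5)) :
    (iota a : Option W × Fin 5 → ℝ) ∈ stdSimplex ℝ (Option W × Fin 5) := by
  constructor
  · rintro ⟨g | g, i⟩
    · exact h.1 i
    · exact le_rfl
  · rw [sum_split]
    simpa [iota] using h.2

omit [Fintype W] in
lemma iota_cont : Continuous (iota : (Fin 5 → ℝ) → (Option W × Fin 5 → ℝ)) := by
  refine continuous_pi ?_
  rintro ⟨g | g, i⟩
  · simp only [iota]; fun_prop
  · simp only [iota]; fun_prop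

lemma R_iota (a b : Fin 5 → ℝ) : R (iota a : Option W × Fin 5 → ℝ) (iota b) = a := by
  have hm : ∀ (c : Fin 5 → ℝ) i, m (iota c : Option W × Fin 5 → ℝ) i = 0 := fun c i => by
    simp [m, iota]
  have h2 : ∀ g i, F2 (iota a : Option W × Fin 5 → ℝ) (iota b) (some g, i) = 0 := by
    intro g i
    fin_cases i <;> simp [F2, F1, iota, hm, thr]
  funext i
  simp [R, h2]
  rfl

/-- The retraction of the box complex onto the box complex of the apex cycle. -/
def Rmap (G : SimpleGraph W) : C(boxComplex (KG G), boxComplex C5) where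
  toFun p := ⟨(R p.1.1 p.1.2, R p.1.2 p.1.1), by
    rw [mem_boxComplex_iff]
    refine ⟨R_mem p.2, R_mem (swap_mem p.2), fun i j hi hj => ?_⟩
    obtain ⟨u, hu, rfl⟩ := R_ne hi
    obtain ⟨v, hv, rfl⟩ := R_ne hj
    exact rel_cyc (d22 p.2 u v hu hv)⟩
  continuous_toFun := by
    refine Continuous.subtype_mk ?_ _
    refine Continuous.prodMk ?_ ?_
    · exact R_cont.comp continuous_subtype_val
    · exact R_cont.comp (continuous_swap.comp continuous_subtype_val)

/-- The inclusion of the box complex of the apex cycle. -/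
def imap (G : SimpleGraph W) : C(boxComplex C5, boxComplex (KG G)) where
  toFun p := ⟨(iota p.1.1, iota p.1.2), by
    obtain ⟨h1, h2, h3⟩ := (mem_boxComplex_iff _ _).1 p.2
    rw [mem_boxComplex_iff]
    refine ⟨iota_mem h1, iota_mem h2, ?_⟩
    rintro ⟨g | g, i⟩ ⟨h | h, j⟩ hu hv
    · exact h3 i j hu hv
    · exact absurd rfl hv
    · exact absurd rfl hu
    · exact absurd rfl hu⟩
  continuous_toFun := by
    refine Continuous.subtype_mk ?_ _
    refine Continuous.prodMk ?_ ?_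
    · exact iota_cont.comp (continuous_fst.comp continuous_subtype_val)
    · exact iota_cont.comp (continuous_snd.comp continuous_subtype_val)

theorem equivKG (G : SimpleGraph W) : Z2HomotopyEquiv (swapBox (KG G)) (swapBox C5) := by
  refine ⟨Rmap G, imap G, fun p => rfl, fun p => rfl, ?_, ?_⟩
  · have h : (imap G).comp (Rmap G) = (stage4 (G := G)).map := by
      ext p : 1
      apply Subtype.ext
      refine Prod.ext ?_ ?_
      · funext v
        obtain ⟨g | g, i⟩ := v <;> rfl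
      · funext v
        obtain ⟨g | g, i⟩ := v <;> rfl
    have h0 : ContinuousMap.id (boxComplex (KG G)) = (stage0 (G := G)).map := by
      ext p : 1
      rfl
    rw [h, h0]
    exact homotopic04.symm
  · have h : (Rmap G).comp (imap G) = ContinuousMap.id (boxComplex C5) := by
      ext p : 1
      apply Subtype.ext
      refine Prod.ext ?_ ?_
      · exact R_iota _ _
      · exact R_iota _ _
    rw [h]
    exact ⟨ContinuousMap.Homotopy.refl _, fun t p => rfl⟩

end Main


section Final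

/-- The categorical (tensor) product of two graphs. -/
def tensor {A B : Type} (G : SimpleGraph A) (H : SimpleGraph B) : SimpleGraph (A × B) where
  Adj p q := G.Adj p.1 q.1 ∧ H.Adj p.2 q.2
  symm := ⟨fun _ _ h => ⟨h.1.symm, h.2.symm⟩⟩
  loopless := ⟨fun _ h => G.irrefl h.1⟩

/-- A graph `K` is multiplicative if for all finite graphs `G` and `H`, a homomorphism
`G × H → K` implies a homomorphism `G → K` or a homomorphism `H → K`. -/
def IsMultiplicative {V : Type} (K : SimpleGraph V) : Prop :=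
  ∀ (A B : Type) [Finite A] [Finite B] (G : SimpleGraph A) (H : SimpleGraph B),
    Nonempty (tensor G H →g K) → Nonempty (G →g K) ∨ Nonempty (H →g K)

/-- Adjacency in the Grötzsch graph: `(false, i)` are the vertices of a 5-cycle, `(true, i)` their
copies and `none` is the apex. -/
def grRel : Option (Bool × Fin 5) → Option (Bool × Fin 5) → Prop
  | some (false, i), some (false, j) => cyc i j
  | some (false, i), some (true, j) => cyc i j
  | some (true, i), some (false, j) => cyc i j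
  | some (true, _), none => True
  | none, some (true, _) => True
  | _, _ => False

/-- The Grötzsch graph. -/
def grotzsch : SimpleGraph (Option (Bool × Fin 5)) where
  Adj := grRel
  symm := ⟨by
    rintro (_ | ⟨_ | _, i⟩) (_ | ⟨_ | _, j⟩) h
    · exact h
    · exact h
    · exact h
    · exact h
    · exact h.symm
    · exact h.symm
    · exact h
    · exact h.symm
    · exact h⟩
  loopless := ⟨by
    rintro (_ | ⟨_ | _, i⟩) h
    · exact h
    · change cyc i i at h
      revert h; revert i; decide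
    · exact h⟩

lemma cyc_no_triangle : ∀ i j k : Fin 5, cyc i j → cyc j k → cyc i k → False := by decide

lemma grotzsch_triangle_free (a b c : Option (Bool × Fin 5)) (hab : grotzsch.Adj a b)
    (hbc : grotzsch.Adj b c) (hac : grotzsch.Adj a c) : False := by
  rcases a with _ | ⟨_ | _, i⟩ <;> rcases b with _ | ⟨_ | _, j⟩ <;> rcases c with _ | ⟨_ | _, k⟩ <;>
    first | exact hab | exact hbc | exact hac | exact cyc_no_triangle i j k hab hbc hac

lemma five_cycle : ∀ (k a b c d e : Fin 3), ¬ (a ≠ k ∧ b ≠ k ∧ c ≠ k ∧ d ≠ k ∧ e ≠ k ∧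
    a ≠ b ∧ b ≠ c ∧ c ≠ d ∧ d ≠ e ∧ e ≠ a) := by decide +kernel

/-- The Grötzsch graph is not 3-colourable. -/
lemma grotzsch_not_three (c : Option (Bool × Fin 5) → Fin 3)
    (hc : ∀ u v, grotzsch.Adj u v → c u ≠ c v) : False := by
  set k := c none with hk
  let d : Fin 5 → Fin 3 := fun i => if c (some (false, i)) = k then c (some (true, i))
    else c (some (false, i))
  have h1 : ∀ i, d i ≠ k := by
    intro i
    simp only [d]
    split_ifs with h
    · exact hc (some (true, i)) none trivial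
    · exact h
  have h2 : ∀ i j, cyc i j → d i ≠ d j := by
    intro i j hij
    have e1 : c (some (false, i)) ≠ c (some (false, j)) := hc _ _ hij
    have e2 : c (some (true, i)) ≠ c (some (false, j)) := hc _ _ hij
    have e3 : c (some (false, i)) ≠ c (some (true, j)) := hc _ _ hij
    simp only [d]
    split_ifs with h h' h'
    · exact absurd (h.trans h'.symm) e1
    · exact e2
    · exact e3
    · exact e1
  exact five_cycle k (d 0) (d 1) (d 2) (d 3) (d 4) ⟨h1 _, h1 _, h1 _, h1 _, h1 _,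
    h2 _ _ (by decide), h2 _ _ (by decide), h2 _ _ (by decide), h2 _ _ (by decide),
    h2 _ _ (by decide)⟩

/-- a proper colouring of the house graph -/
def col : Fin 5 → Fin 3 := ![0, 1, 2, 0, 1]

lemma col_proper : ∀ i j : Fin 5, (cyc i j ∨ chord i j) → col i ≠ col j := by decide

lemma adj_class {W : Type*} [Fintype W] (G : SimpleGraph W) (u v : Option W × Fin 5)
    (h : (KG G).Adj u v) : cyc u.2 v.2 ∨ chord u.2 v.2 := by
  obtain ⟨g | g, i⟩ := u <;> obtain ⟨h' | h', j⟩ := v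
  · exact Or.inl h
  · exact Or.inl h.2
  · exact Or.inl h.2
  · exact h.2

/-- Adjacency in the house graph. -/
def house (i j : Fin 5) : Prop := cyc i j ∨ chord i j

instance (i j : Fin 5) : Decidable (house i j) := by unfold house; infer_instance

lemma house_triangle : ∀ i j k : Fin 5, house i j → house j k → house i k →
    (chord i j ∧ k = 1) ∨ (chord j k ∧ i = 1) ∨ (chord i k ∧ j = 1) := by
  decide

lemma chord_not_coned : ∀ i j : Fin 5, chord i j → ¬ coned i ∧ ¬ coned j ∧ ¬ cyc i j := by decide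

/-- `K(G)` is triangle-free if `G` is. -/
lemma KG_triangle_free {W : Type*} [Fintype W] (G : SimpleGraph W)
    (hG : ∀ a b c, G.Adj a b → G.Adj b c → G.Adj a c → False) (u v w : Option W × Fin 5)
    (huv : (KG G).Adj u v) (hvw : (KG G).Adj v w) (huw : (KG G).Adj u w) : False := by
  have main : ∀ u v w : Option W × Fin 5, (KG G).Adj u v → (KG G).Adj v w → (KG G).Adj u w →
      chord u.2 v.2 → False := by
    intro u v w huv hvw huw hch
    obtain ⟨ci, cj, cc⟩ := chord_not_coned _ _ hch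
    obtain ⟨g | g, i⟩ := u
    · obtain ⟨h' | h', j⟩ := v
      · exact cc huv
      · exact cc huv.2
    · obtain ⟨h' | h', j⟩ := v
      · exact cc huv.2
      · obtain ⟨k' | k', k⟩ := w
        · exact ci huw.1
        · exact hG _ _ _ huv.1 hvw.1 huw.1
  rcases house_triangle _ _ _ (adj_class G u v huv) (adj_class G v w hvw) (adj_class G u w huw)
    with h | h | h
  · exact main u v w huv hvw huw h.1
  · exact main v w u hvw huw.symm huv.symm h.1
  · exact main u w v huw hvw.symm huv h.1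

/-- The embedding of the classes `0, 1, 2`. -/
def emb : Fin 3 → Fin 5 := ![0, 1, 2]

lemma emb_adj : ∀ s t : Fin 3, s ≠ t → (cyc (emb s) (emb t) ∨ chord (emb s) (emb t)) := by decide

/-- `K(G)` is not multiplicative if `G` is finite, triangle-free and not 3-colourable. -/
theorem KG_not_multiplicative : ¬ IsMultiplicative (KG grotzsch) := by
  intro hM
  have h1 : Nonempty (tensor grotzsch (⊤ : SimpleGraph (Fin 3)) →g KG grotzsch) :=
    ⟨{ toFun := fun p => (some p.1, emb p.2)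
       map_rel' := fun {p q} h => ⟨h.1, emb_adj _ _ h.2⟩ }⟩
  rcases hM _ _ grotzsch (⊤ : SimpleGraph (Fin 3)) h1 with ⟨⟨f⟩⟩ | ⟨⟨f⟩⟩
  · exact grotzsch_not_three (fun v => col (f v).2) (fun u v huv =>
      col_proper _ _ (adj_class _ _ _ (f.map_rel huv)))
  · exact KG_triangle_free grotzsch grotzsch_triangle_free (f 0) (f 1) (f 2)
      (f.map_rel (by decide)) (f.map_rel (by decide)) (f.map_rel (by decide))

/-- **Disproof.** There is a finite simple graph `K` whose box complex is `ℤ₂`-homotopy equivalent to the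
circle with the antipodal action and which is not multiplicative. -/
theorem result : ∃ (V : Type) (_ : Fintype V) (K : SimpleGraph V),
    Z2HomotopyEquiv (swapBox K) antipode ∧ ¬ IsMultiplicative K :=
  ⟨_, inferInstance, KG grotzsch, (equivKG grotzsch).trans equivC5, KG_not_multiplicative⟩

end Final

end Pool.Agent.Results.MP_ccca26_co.CircleBox
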